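import Pool.Agent.Lib.MP_ccbbf6_gt.Flow.Local

/-!
Smoothness of the global flow of a `C^n` vector field on a Banach space; smoothness near time zero for
a vector field which is `C^n` only on an open subset of a finite dimensional space.
-/

namespace Pool.Agent.BL.Flow

open Set Metric Filter Topology MeasureTheory
open scoped ContDiff NNReal

universe u

/-- Uniqueness: `c'` stays in the region where the vector field is `C^1`. -/
theorem sol_unique_on {F : Type*} [NormedAddCommGroup F] [NormedSpace ℝ F] {V : F → F}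
    {a b t₀ : ℝ} {c c' : ℝ → F} (ht : t₀ ∈ Ioo a b)
    (hV : ∀ t ∈ Ioo a b, ContDiffAt ℝ 1 V (c' t))
    (hc : ∀ t ∈ Ioo a b, HasDerivAt c (V (c t)) t)
    (hc' : ∀ t ∈ Ioo a b, HasDerivAt c' (V (c' t)) t) (h : c t₀ = c' t₀) :
    EqOn c c' (Ioo a b) := by
  have hloc : ∀ t ∈ Ioo a b, c t = c' t → c =ᶠ[𝓝 t] c' := by
    intro t ht1 h1
    obtain ⟨K, s, hs, hLip⟩ := (hV t ht1).exists_lipschitzOnWith
    have hI : Ioo a b ∈ 𝓝 t := Ioo_mem_nhds ht1.1 ht1.2
    have h3 : ∀ᶠ x in 𝓝 t, c' x ∈ s := (hc' t ht1).continuousAt hs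
    have hs' : s ∈ 𝓝 (c t) := by rwa [h1]
    have h4 : ∀ᶠ x in 𝓝 t, c x ∈ s := (hc t ht1).continuousAt hs'
    refine ODE_solution_unique_of_eventually (v := fun _ => V) (s := fun _ => s) (K := K)
      (Eventually.of_forall fun _ => hLip) ?_ ?_ h1
    · filter_upwards [hI, h4] with x hx hx'
      exact ⟨hc x hx, hx'⟩
    · filter_upwards [hI, h3] with x hx hx'
      exact ⟨hc' x hx, hx'⟩
  have hsub : Ioo a b ⊆ {t | c =ᶠ[𝓝 t] c'} := by
    refine isPreconnected_Ioo.subset_of_closure_inter_subset isOpen_setOfPred_eventually_nhds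
      ⟨t₀, ht, hloc t₀ ht h⟩ ?_
    rintro t ⟨ht1, ht2⟩
    refine hloc t ht2 ?_
    by_contra hne
    have hev0 : ∀ᶠ x in 𝓝 t, (c - c') x ≠ 0 :=
      ((hc t ht2).continuousAt.sub (hc' t ht2).continuousAt).eventually_ne (sub_ne_zero.2 hne)
    rw [mem_closure_iff_frequently] at ht1
    obtain ⟨x, hx1, hx2⟩ := (ht1.and_eventually hev0).exists
    exact hx2 (sub_eq_zero.2 hx1.self_of_nhds)
  exact fun t ht' => (hsub ht').self_of_nhds

section Global

variable {E : Type u} [NormedAddCommGroup E] [NormedSpace ℝ E] [CompleteSpace E]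

/-- group law of a global flow -/
theorem flow_add {f : E → E} (hf : ContDiff ℝ 1 f) {Φ : ℝ → E → E}
    (h0 : ∀ x, Φ 0 x = x) (hd : ∀ t x, HasDerivAt (fun s => Φ s x) (f (Φ t x)) t)
    (s t : ℝ) (x : E) : Φ (s + t) x = Φ s (Φ t x) := by
  have h1 : ∀ r, HasDerivAt (fun r => Φ (r + t) x) (f (Φ (r + t) x)) r := fun r =>
    (hd (r + t) x).comp_add_const r t
  have h2 := PPF.sol_unique_univ hf (t₀ := 0) (c := fun r => Φ (r + t) x)
    (c' := fun r => Φ r (Φ t x)) h1 (fun r => hd r (Φ t x)) (by simp [h0])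
  exact congrFun h2 s

/-- **Global smooth dependence**: the flow of a complete `C^n` vector field is jointly `C^n`. -/
theorem contDiff_flow {n : ℕ∞} (hn : 1 ≤ n) {f : E → E} (hf : ContDiff ℝ n f) {Φ : ℝ → E → E}
    (h0 : ∀ x, Φ 0 x = x) (hd : ∀ t x, HasDerivAt (fun s => Φ s x) (f (Φ t x)) t) :
    ContDiff ℝ n (fun q : ℝ × E => Φ q.1 q.2) := by
  have hf1 : ContDiff ℝ 1 f := hf.of_le (by exact_mod_cast hn)
  -- finite order
  have key : ∀ m : ℕ, 1 ≤ m → ContDiff ℝ m f → ContDiff ℝ m (fun q : ℝ × E => Φ q.1 q.2) := by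
    intro m hm hfm
    have hloc : ∀ y, ContDiffAt ℝ m (fun q : ℝ × E => Φ q.1 q.2) (0, y) := by
      intro y
      have := contDiffAt_of_localFlow (n := (m : ℕ∞)) (by exact_mod_cast hm) (f := f)
        (by exact_mod_cast hfm) (x0 := y) (a := 1) one_pos (Φ := Φ)
        (Eventually.of_forall h0) (Eventually.of_forall fun x t _ => hd t x)
      exact_mod_cast this
    rw [contDiff_iff_contDiffAt]
    rintro ⟨t, x⟩
    -- the set of good times
    obtain ⟨A, hA⟩ : ∃ A : Set ℝ, A = {t | ContDiffAt ℝ m (fun q : ℝ × E => Φ q.1 q.2) (t, x)} :=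
      ⟨_, rfl⟩
    have hstep : ∀ t1 : ℝ, ∃ η > 0, ∀ t' ∈ ball t1 η, ∀ t'' ∈ ball t1 η, t' ∈ A → t'' ∈ A := by
      intro t1
      have h1 : ∀ᶠ q in 𝓝 ((0 : ℝ), Φ t1 x), ContDiffAt ℝ m (fun q : ℝ × E => Φ q.1 q.2) q :=
        (hloc (Φ t1 x)).eventually (by simp)
      have h2 : Tendsto (fun r : ℝ × ℝ => (r.2 - r.1, Φ r.1 x)) (𝓝 (t1, t1))
          (𝓝 ((0 : ℝ), Φ t1 x)) := by
        have h3 : ContinuousAt (fun r : ℝ × ℝ => (r.2 - r.1, Φ r.1 x)) (t1, t1) := by
          refine ContinuousAt.prodMk (by fun_prop) ?_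
          exact ContinuousAt.comp (f := fun r : ℝ × ℝ => r.1) (g := fun s => Φ s x)
            (hd t1 x).continuousAt continuousAt_fst
        simpa [ContinuousAt] using h3
      have h4 := h2.eventually h1
      rw [Metric.eventually_nhds_iff_ball] at h4
      obtain ⟨η, hη, H⟩ := h4
      refine ⟨η, hη, fun t' ht' t'' ht'' hA' => ?_⟩
      have h5 := H (t', t'') (by
        rw [← ball_prod_same]
        exact ⟨ht', ht''⟩)
      rw [hA] at hA' ⊢
      simp only [mem_ofPred_eq] at hA' ⊢ h5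
      -- Φ (s, y) = Φ (s - t', Φ (t', y))
      have h6 : (fun q : ℝ × E => Φ q.1 q.2) = (fun q : ℝ × E => Φ q.1 q.2) ∘
          (fun q : ℝ × E => (q.1 - t', Φ t' q.2)) := by
        funext q
        simp only [Function.comp]
        rw [← flow_add hf1 h0 hd]
        congr 1
        ring
      rw [h6]
      have h7 : ContDiffAt ℝ m (fun q : ℝ × E => (q.1 - t', Φ t' q.2)) (t'', x) := by
        refine ContDiffAt.prodMk (by fun_prop) ?_
        have h8 : ContDiffAt ℝ m (fun q : ℝ × E => (t', q.2)) (t'', x) := by fun_prop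
        exact ContDiffAt.comp (t'', x) (g := fun q : ℝ × E => Φ q.1 q.2) hA' h8
      exact ContDiffAt.comp (t'', x) h5 h7
    have hA0 : (0 : ℝ) ∈ A := by
      rw [hA]
      exact hloc x
    have hclopen : IsClopen A := by
      constructor
      · rw [← closure_subset_iff_isClosed]
        intro t1 ht1
        obtain ⟨η, hη, H⟩ := hstep t1
        obtain ⟨t', ht', h9⟩ := Metric.mem_closure_iff.1 ht1 η hη
        exact H t' (by rw [mem_ball, dist_comm]; exact h9) t1 (mem_ball_self hη) ht'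
      · rw [Metric.isOpen_iff]
        intro t1 ht1
        obtain ⟨η, hη, H⟩ := hstep t1
        exact ⟨η, hη, fun t'' ht'' => H t1 (mem_ball_self hη) t'' ht'' ht1⟩
    have huniv : A = univ := by
      rcases isClopen_iff.1 hclopen with h | h
      · rw [h] at hA0
        exact absurd hA0 (by simp)
      · exact h
    have : t ∈ A := by rw [huniv]; trivial
    rw [hA] at this
    exact this
  rcases eq_or_ne n ⊤ with rfl | hn'
  · refine contDiff_infty.2 (fun m => ?_)
    have h1 : ContDiff ℝ ((max m 1 : ℕ)) f := hf.of_le (by exact_mod_cast le_top)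
    exact (key (max m 1) (le_max_right _ _) h1).of_le (by exact_mod_cast le_max_left m 1)
  · lift n to ℕ using hn'
    exact key n (by exact_mod_cast hn) hf

end Global

end Pool.Agent.BL.Flow
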