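import Pool.Agent.Lib.MP_ccbbf6_gt.Flow.Nemytskii
import Pool.Agent.Lib.MP_ccbbf6_gt.Flow.OUniq

/-!
Joint smooth dependence on time and initial point of the flow of a `C^n` vector field, `n ≥ 1`
(implicit function theorem in the space of continuous curves).
-/

namespace Pool.Agent.BL.Flow

open Set Metric Filter Topology MeasureTheory
open scoped ContDiff NNReal

universe u

/-- The compact time interval. -/
abbrev II : Type := Icc (-1 : ℝ) 1

/-- The time `0`. -/
def t0 : II := ⟨0, by norm_num, by norm_num⟩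

/-- The time `1/2`. -/
noncomputable def tH : II := ⟨1 / 2, by norm_num, by norm_num⟩

section J

set_option linter.unusedSectionVars false

variable {E : Type u} [NormedAddCommGroup E] [NormedSpace ℝ E] [CompleteSpace E]

/-- Extension of a continuous curve by its end values. -/
noncomputable def ext (h : C(II, E)) (r : ℝ) : E := h (projIcc (-1 : ℝ) 1 (by norm_num) r)

omit [NormedSpace ℝ E] [CompleteSpace E] in
lemma continuous_ext (h : C(II, E)) : Continuous (ext h) := h.continuous.comp continuous_projIcc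

omit [NormedSpace ℝ E] [CompleteSpace E] in
lemma ext_of_mem (h : C(II, E)) {r : ℝ} (hr : r ∈ Icc (-1 : ℝ) 1) : ext h r = h ⟨r, hr⟩ := by
  unfold ext
  rw [projIcc_of_mem _ hr]

omit [NormedSpace ℝ E] [CompleteSpace E] in
lemma norm_ext_le (h : C(II, E)) (r : ℝ) : ‖ext h r‖ ≤ ‖h‖ := h.norm_coe_le_norm _

/-- The primitive, as a function on the line. -/
noncomputable def prim (h : C(II, E)) (r : ℝ) : E := ∫ s in (0 : ℝ)..r, ext h s

lemma hasDerivAt_prim (h : C(II, E)) (r : ℝ) : HasDerivAt (prim h) (ext h r) r :=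
  intervalIntegral.integral_hasDerivAt_right ((continuous_ext h).intervalIntegrable _ _)
    ((continuous_ext h).stronglyMeasurableAtFilter _ _) (continuous_ext h).continuousAt

lemma continuous_prim (h : C(II, E)) : Continuous (prim h) :=
  continuous_iff_continuousAt.2 fun r => (hasDerivAt_prim h r).continuousAt

/-- The primitive operator on `C([-1,1], E)`. -/
noncomputable def intJ : C(II, E) →L[ℝ] C(II, E) :=
  LinearMap.mkContinuous
    { toFun := fun h => ⟨fun τ => prim h τ, (continuous_prim h).comp continuous_subtype_val⟩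
      map_add' := fun h k => by
        ext τ
        show prim (h + k) τ = prim h τ + prim k τ
        unfold prim
        rw [← intervalIntegral.integral_add ((continuous_ext h).intervalIntegrable _ _)
          ((continuous_ext k).intervalIntegrable _ _)]
        rfl
      map_smul' := fun c h => by
        ext τ
        show prim (c • h) τ = c • prim h τ
        unfold prim
        rw [← intervalIntegral.integral_smul]
        rfl }
    1
    (fun h => by
      rw [one_mul]
      refine (ContinuousMap.norm_le _ (norm_nonneg _)).2 (fun τ => ?_)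
      show ‖prim h τ‖ ≤ ‖h‖
      have h1 := intervalIntegral.norm_integral_le_of_norm_le_const (a := 0) (b := (τ : ℝ))
        (f := ext h) (C := ‖h‖) (fun x _ => norm_ext_le h x)
      refine h1.trans ?_
      have h2 : |(τ : ℝ) - 0| ≤ 1 := by
        rw [sub_zero, abs_le]
        exact ⟨τ.2.1, τ.2.2⟩
      exact mul_le_of_le_one_right (norm_nonneg _) h2)

@[simp] lemma intJ_apply (h : C(II, E)) (τ : II) : intJ h τ = prim h τ := rfl

/-- Constant curves. -/
noncomputable def cst : E →L[ℝ] C(II, E) :=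
  LinearMap.mkContinuous
    { toFun := fun x => ContinuousMap.const II x
      map_add' := fun x y => by ext τ; simp
      map_smul' := fun c x => by ext τ; simp }
    1
    (fun x => by
      rw [one_mul]
      refine (ContinuousMap.norm_le _ (norm_nonneg _)).2 (fun τ => ?_)
      show ‖x‖ ≤ ‖x‖
      exact le_rfl)

@[simp] lemma cst_apply (x : E) (τ : II) : cst x τ = x := rfl

/-- Evaluation. -/
noncomputable def evL (τ : II) : C(II, E) →L[ℝ] E :=
  LinearMap.mkContinuous
    { toFun := fun h => h τ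
      map_add' := fun x y => by simp
      map_smul' := fun c x => by simp }
    1
    (fun h => by
      rw [one_mul]
      exact h.norm_coe_le_norm τ)

@[simp] lemma evL_apply (τ : II) (h : C(II, E)) : evL τ h = h τ := rfl

/-- The equation satisfied by rescaled solutions. -/
noncomputable def Geq (f : E → E) (hf : Continuous f) (q : (ℝ × E) × C(II, E)) : C(II, E) :=
  q.2 - cst q.1.2 - q.1.1 • intJ (nem II f hf q.2)

lemma contDiff_Geq {n : ℕ∞} (f : E → E) (hf : ContDiff ℝ n f) :
    ContDiff ℝ n (Geq f hf.continuous) := by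
  unfold Geq
  have h1 : ContDiff ℝ n (fun q : (ℝ × E) × C(II, E) => nem II f hf.continuous q.2) :=
    (contDiff_nem f hf).comp contDiff_snd
  have h2 : ContDiff ℝ n (fun q : (ℝ × E) × C(II, E) => intJ (nem II f hf.continuous q.2)) :=
    (intJ (E := E)).contDiff.comp h1
  have h3 : ContDiff ℝ n (fun q : (ℝ × E) × C(II, E) => (cst q.1.2 : C(II, E))) :=
    (cst (E := E)).contDiff.comp (contDiff_snd.comp contDiff_fst)
  exact (contDiff_snd.sub h3).sub ((contDiff_fst.comp contDiff_fst).smul h2)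

lemma fderiv_Geq_inr (f : E → E) (hf : ContDiff ℝ 1 f) (x0 : E) (γ : C(II, E)) :
    fderiv ℝ (Geq f hf.continuous) ((0, x0), γ) ∘L
      (ContinuousLinearMap.inr ℝ (ℝ × E) C(II, E)) = ContinuousLinearMap.id ℝ _ := by
  have hd : DifferentiableAt ℝ (Geq f hf.continuous) ((0, x0), γ) :=
    ((contDiff_Geq f hf).differentiable one_ne_zero).differentiableAt
  have h1 : HasFDerivAt (fun η : C(II, E) => Geq f hf.continuous ((0, x0), η))
      (fderiv ℝ (Geq f hf.continuous) ((0, x0), γ) ∘L
      (ContinuousLinearMap.inr ℝ (ℝ × E) C(II, E))) γ := by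
    have h2 : HasFDerivAt (fun η : C(II, E) => (((0 : ℝ), x0), η))
        (ContinuousLinearMap.inr ℝ (ℝ × E) C(II, E)) γ := hasFDerivAt_prodMk_right _ _
    exact HasFDerivAt.comp γ hd.hasFDerivAt h2
  have h3 : HasFDerivAt (fun η : C(II, E) => Geq f hf.continuous ((0, x0), η))
      (ContinuousLinearMap.id ℝ _) γ := by
    have h4 : (fun η : C(II, E) => Geq f hf.continuous ((0, x0), η)) = fun η => η - cst x0 := by
      funext η
      simp [Geq]
    rw [h4]
    exact (hasFDerivAt_id γ).sub_const _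
  exact h1.unique h3

/-- A curve solving the integral equation, extended to the line, solves the rescaled ODE. -/
lemma solves_of_Geq (f : E → E) (hf : Continuous f) {s : ℝ} {x : E} {γ : C(II, E)}
    (h : Geq f hf ((s, x), γ) = 0) :
    γ t0 = x ∧ ∀ r ∈ Ioo (-1 : ℝ) 1, HasDerivAt (ext γ) (s • f (ext γ r)) r := by
  have key : ∀ τ : II, γ τ = x + s • prim (nem II f hf γ) τ := by
    intro τ
    have h1 : (Geq f hf ((s, x), γ)) τ = 0 := by rw [h]; rfl
    have h2 : γ τ - x - s • prim (nem II f hf γ) τ = 0 := h1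
    rw [sub_sub, sub_eq_zero] at h2
    exact h2
  constructor
  · rw [key]
    simp [prim, t0]
  · intro r hr
    have hr' : r ∈ Icc (-1 : ℝ) 1 := Ioo_subset_Icc_self hr
    have h3 : ext γ =ᶠ[𝓝 r] fun r => x + s • prim (nem II f hf γ) r := by
      filter_upwards [Ioo_mem_nhds hr.1 hr.2] with y hy
      rw [ext_of_mem γ (Ioo_subset_Icc_self hy), key]
    have h4 : HasDerivAt (fun r => x + s • prim (nem II f hf γ) r)
        (s • ext (nem II f hf γ) r) r :=
      ((hasDerivAt_prim (nem II f hf γ) r).const_smul s).const_add x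
    have h5 : ext (nem II f hf γ) r = f (ext γ r) := rfl
    rw [h5] at h4
    exact h4.congr_of_eventuallyEq h3

/-- **Local smooth dependence.** Any local flow of a `C^n` vector field is `C^n` near time zero. -/
theorem contDiffAt_of_localFlow {n : ℕ∞} (hn : 1 ≤ n) {f : E → E} (hf : ContDiff ℝ n f)
    {x0 : E} {a : ℝ} (ha : 0 < a) {Φ : ℝ → E → E}
    (h0 : ∀ᶠ x in 𝓝 x0, Φ 0 x = x)
    (hd : ∀ᶠ x in 𝓝 x0, ∀ t ∈ Ioo (-a) a, HasDerivAt (fun s => Φ s x) (f (Φ t x)) t) :
    ContDiffAt ℝ n (fun q : ℝ × E => Φ q.1 q.2) (0, x0) := by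
  have hn' : ((n : ℕ∞) : WithTop ℕ∞) ≠ 0 := by
    intro h
    have : n = 0 := by exact_mod_cast h
    rw [this] at hn
    exact absurd hn (by decide)
  have hf1 : ContDiff ℝ 1 f := hf.of_le (by exact_mod_cast hn)
  obtain ⟨u, hu⟩ : ∃ u : (ℝ × E) × C(II, E), u = ((0, x0), cst x0) := ⟨_, rfl⟩
  have cdf : ContDiffAt ℝ n (Geq f hf.continuous) u := (contDiff_Geq f hf).contDiffAt
  have if₂ : (fderiv ℝ (Geq f hf.continuous) u ∘L
      (ContinuousLinearMap.inr ℝ (ℝ × E) C(II, E))).IsInvertible := by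
    rw [hu, fderiv_Geq_inr f hf1]
    exact ⟨ContinuousLinearEquiv.refl ℝ _, rfl⟩
  have hGu : Geq f hf.continuous u = 0 := by
    rw [hu]
    simp [Geq]
  obtain ⟨ψ, hψ⟩ : ∃ ψ, ψ = cdf.implicitFunction hn' if₂ := ⟨_, rfl⟩
  have hψC : ContDiffAt ℝ n ψ u.1 := by
    rw [hψ]
    exact cdf.contDiffAt_implicitFunction hn' if₂
  have hψE : ∀ᶠ v in 𝓝 u.1, Geq f hf.continuous (v, ψ v) = 0 := by
    have := cdf.eventually_apply_implicitFunction hn' if₂
    rw [hGu, ← hψ] at this
    exact this
  have hu1 : u.1 = (0, x0) := by rw [hu]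
  rw [hu1] at hψC hψE
  -- the flow is given by the implicit function
  have hev : ∀ᶠ q : ℝ × E in 𝓝 (0, x0), ψ q tH = Φ (q.1 * (1 / 2)) q.2 := by
    have h0' : ∀ᶠ q : ℝ × E in 𝓝 (0, x0), Φ 0 q.2 = q.2 :=
      (continuous_snd.tendsto ((0 : ℝ), x0)).eventually h0
    have hd' : ∀ᶠ q : ℝ × E in 𝓝 (0, x0), ∀ t ∈ Ioo (-a) a,
        HasDerivAt (fun s => Φ s q.2) (f (Φ t q.2)) t :=
      (continuous_snd.tendsto ((0 : ℝ), x0)).eventually hd
    have hs : ∀ᶠ q : ℝ × E in 𝓝 (0, x0), q.1 ∈ Ioo (-a) a :=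
      (continuous_fst.tendsto ((0 : ℝ), x0)).eventually (Ioo_mem_nhds (by simpa using ha) ha)
    filter_upwards [hψE, h0', hd', hs] with q hq1 hq2 hq3 hq4
    obtain ⟨s, x⟩ := q
    simp only at hq1 hq2 hq3 hq4 ⊢
    obtain ⟨h1, h2⟩ := solves_of_Geq f hf.continuous hq1
    have hsf : ContDiff ℝ 1 (fun y => s • f y) := hf1.const_smul s
    have h3 : ∀ r ∈ Ioo (-1 : ℝ) 1, HasDerivAt (fun r => Φ (s * r) x) (s • f (Φ (s * r) x)) r := by
      intro r hr
      have hmem : s * r ∈ Ioo (-a) a := by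
        rw [mem_Ioo, ← abs_lt] at hr hq4 ⊢
        rw [abs_mul]
        calc |s| * |r| ≤ |s| * 1 := by gcongr
          _ < a := by rw [mul_one]; exact hq4
      have h5 := (hq3 (s * r) hmem).scomp r ((hasDerivAt_id r).const_mul s)
      simpa [Function.comp_def] using h5
    have h4 := PPF.sol_unique hsf (a := -1) (b := 1) (t₀ := 0) (c := ext (ψ (s, x)))
      (c' := fun r => Φ (s * r) x) (by norm_num) h2 h3 (by
        have h6 : ext (ψ (s, x)) 0 = x := by
          rw [ext_of_mem _ (show (0 : ℝ) ∈ Icc (-1 : ℝ) 1 by norm_num)]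
          exact h1
        rw [h6, mul_zero, hq2])
    have h7 := h4 (show (1 / 2 : ℝ) ∈ Ioo (-1 : ℝ) 1 by norm_num)
    rw [ext_of_mem _ (show (1 / 2 : ℝ) ∈ Icc (-1 : ℝ) 1 by norm_num)] at h7
    exact h7
  have hC2 : ContDiffAt ℝ n (fun q : ℝ × E => evL tH (ψ (q.1 * 2, q.2))) (0, x0) := by
    have h8 : ContDiff ℝ n (fun q : ℝ × E => (q.1 * 2, q.2)) := by fun_prop
    have h9 : ContDiffAt ℝ n ψ ((fun q : ℝ × E => (q.1 * 2, q.2)) (0, x0)) := by
      simpa using hψC
    exact (evL tH).contDiff.contDiffAt.comp (0, x0) (h9.comp (0, x0) h8.contDiffAt)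
  refine hC2.congr_of_eventuallyEq ?_
  have h10 : Tendsto (fun q : ℝ × E => (q.1 * 2, q.2)) (𝓝 (0, x0)) (𝓝 (0, x0)) := by
    have : Continuous (fun q : ℝ × E => (q.1 * 2, q.2)) := by fun_prop
    have := this.tendsto (0, x0)
    simpa using this
  filter_upwards [h10.eventually hev] with q hq
  simp only [evL_apply]
  rw [hq]
  congr 1
  ring

end J

end Pool.Agent.BL.Flow
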