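import Pool.Agent.Lib.MP_ccbbf6_gt.Flow.Open

/-!
Smoothness of the flow of a complete `C^n` vector field on a boundaryless Hausdorff manifold.
-/

namespace Pool.Agent.BL.Flow

open Set Metric Filter Topology MeasureTheory Manifold
open scoped ContDiff NNReal

universe u

section Man

variable {E : Type u} [NormedAddCommGroup E] [NormedSpace ℝ E]
  {H : Type*} [TopologicalSpace H] {I : ModelWithCorners ℝ E H}
  {X : Type*} [TopologicalSpace X] [ChartedSpace H X] [IsManifold I ∞ X]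
  {v : (x : X) → TangentSpace I x}

variable (I v) in
/-- The vector field read in the chart at `x0`. -/
noncomputable def vloc (x0 : X) : E → E :=
  fun y => tangentCoordChange I ((extChartAt I x0).symm y) x0 ((extChartAt I x0).symm y)
    (v ((extChartAt I x0).symm y))

set_option backward.isDefEq.respectTransparency false in
/-- the local representative of a `C^n` vector field is `C^n` -/
theorem contDiffOn_vloc {n : ℕ∞}
    (hv : ContMDiff I I.tangent n (fun x => (⟨x, v x⟩ : TangentBundle I X))) (x0 : X) :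
    ContDiffOn ℝ n (vloc I v x0) (extChartAt I x0).target := by
  have h1 := (contMDiff_iff.1 hv).2 x0 ⟨x0, v x0⟩
  have h2 : (extChartAt I x0).target ⊆ (extChartAt I x0).target ∩
      (extChartAt I x0).symm ⁻¹' ((fun x => (⟨x, v x⟩ : TangentBundle I X)) ⁻¹'
        (extChartAt I.tangent (⟨x0, v x0⟩ : TangentBundle I X)).source) := by
    intro y hy
    refine ⟨hy, ?_⟩
    have h3 : (extChartAt I x0).symm y ∈ (extChartAt I x0).source := (extChartAt I x0).map_target hy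
    rw [extChartAt_source] at h3
    simp only [mem_preimage, extChartAt_source]
    rw [TangentBundle.mem_chart_source_iff]
    exact h3
  have h4 := h1.mono h2
  exact h4.snd

set_option backward.isDefEq.respectTransparency false in
/-- A curve solving the ODE in the chart gives an integral curve. -/
theorem isMIntegralCurve_of_chart {x0 : X} [I.Boundaryless] {c : ℝ → E} {t : ℝ}
    (ht : c t ∈ (extChartAt I x0).target) (hc : HasDerivAt c (vloc I v x0 (c t)) t) :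
    HasMFDerivAt 𝓘(ℝ, ℝ) I ((extChartAt I x0).symm ∘ c) t
      ((1 : ℝ →L[ℝ] ℝ).smulRight (v (((extChartAt I x0).symm ∘ c) t))) := by
  have hopen : IsOpen (extChartAt I x0).target := isOpen_extChartAt_target x0
  let xₜ : X := (extChartAt I x0).symm (c t)
  have h : HasDerivAt c (tangentCoordChange I xₜ x0 xₜ (v xₜ)) t := hc
  have hft1 : xₜ ∈ (extChartAt I x0).source := (extChartAt I x0).map_target ht
  have hft2 := mem_extChartAt_source (I := I) xₜ
  refine ⟨(continuousAt_extChartAt_symm'' ht).comp h.continuousAt,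
    HasDerivWithinAt.hasFDerivWithinAt ?_⟩
  simp only [mfld_simps, hasDerivWithinAt_univ]
  change HasDerivAt ((extChartAt I xₜ ∘ (extChartAt I x0).symm) ∘ c) (v xₜ) t
  rw [← tangentCoordChange_self (I := I) (x := xₜ) (z := xₜ) (v := v xₜ) hft2,
    ← tangentCoordChange_comp (x := x0) ⟨⟨hft2, hft1⟩, hft2⟩]
  apply HasFDerivAt.comp_hasDerivAt _ _ h
  apply HasFDerivWithinAt.hasFDerivAt (s := range I) _ <|
    mem_of_superset (hopen.mem_nhds ht) (extChartAt_target_subset_range ..)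
  rw [← (extChartAt I x0).right_inv ht]
  exact hasFDerivWithinAt_tangentCoordChange ⟨hft1, hft2⟩

variable [FiniteDimensional ℝ E] [I.Boundaryless] [T2Space X]

/-- **Local smoothness** of the flow on a manifold. -/
theorem contMDiffAt_flow_local {n : ℕ∞} (hn : 1 ≤ n)
    (hv : ContMDiff I I.tangent n (fun x => (⟨x, v x⟩ : TangentBundle I X)))
    {Φ : ℝ → X → X} (x0 : X) {a : ℝ} (ha : 0 < a)
    (h0 : ∀ᶠ x in 𝓝 x0, Φ 0 x = x)
    (hΦ : ∀ᶠ x in 𝓝 x0, IsMIntegralCurveOn (fun t => Φ t x) v (Ioo (-a) a)) :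
    ∀ᶠ q : ℝ × X in 𝓝 (0, x0),
      ContMDiffAt ((𝓘(ℝ, ℝ)).prod I) I n (fun q : ℝ × X => Φ q.1 q.2) q := by
  have hnI : IsManifold I n X := IsManifold.of_le (n := ∞) (by exact_mod_cast le_top)
  have hv1 : ContMDiff I I.tangent 1 (fun x => (⟨x, v x⟩ : TangentBundle I X)) :=
    hv.of_le (by exact_mod_cast hn)
  have hopen : IsOpen (extChartAt I x0).target := isOpen_extChartAt_target x0
  have htn : (extChartAt I x0).target ∈ 𝓝 (extChartAt I x0 x0) :=
    hopen.mem_nhds (mem_extChartAt_target x0)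
  obtain ⟨ε, hε, Ψ, hΨ, hΨ0, -, -, hΨd⟩ := exists_localFlow hn htn (contDiffOn_vloc hv x0)
  rw [hopen.interior_eq] at hΨd
  obtain ⟨b, hb⟩ : ∃ b, b = min a ε := ⟨_, rfl⟩
  have hb0 : 0 < b := by rw [hb]; exact lt_min ha hε
  have hba : b ≤ a := by rw [hb]; exact min_le_left _ _
  have hbε : b ≤ ε := by rw [hb]; exact min_le_right _ _
  -- the open set where the formula holds
  have hx : ∀ᶠ x in 𝓝 x0, x ∈ (extChartAt I x0).source ∧
      extChartAt I x0 x ∈ ball (extChartAt I x0 x0) ε ∧ Φ 0 x = x ∧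
      IsMIntegralCurveOn (fun t => Φ t x) v (Ioo (-a) a) := by
    have h1 : ∀ᶠ x in 𝓝 x0, x ∈ (extChartAt I x0).source := extChartAt_source_mem_nhds x0
    have h2 : ∀ᶠ x in 𝓝 x0, extChartAt I x0 x ∈ ball (extChartAt I x0 x0) ε :=
      (continuousAt_extChartAt x0).eventually (ball_mem_nhds _ hε)
    filter_upwards [h1, h2, h0, hΦ] with x h1 h2 h3 h4
    exact ⟨h1, h2, h3, h4⟩
  obtain ⟨W, hW, hWo, hx0W⟩ := mem_nhds_iff.1 hx
  have hform : ∀ q : ℝ × X, q.1 ∈ Ioo (-b) b → q.2 ∈ W →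
      Φ q.1 q.2 = (extChartAt I x0).symm (Ψ q.1 (extChartAt I x0 q.2)) := by
    rintro ⟨t, x⟩ ht hxW
    simp only at ht ⊢
    obtain ⟨h1, h2, h3, h4⟩ := hW hxW
    have h5 : IsMIntegralCurveOn (fun s => (extChartAt I x0).symm (Ψ s (extChartAt I x0 x))) v
        (Ioo (-b) b) := by
      intro s hs
      have hs' : s ∈ Ioo (-ε) ε := ⟨by linarith [hs.1], by linarith [hs.2]⟩
      obtain ⟨h6, h7⟩ := hΨd _ h2 s hs'
      exact (isMIntegralCurve_of_chart (c := fun s => Ψ s (extChartAt I x0 x)) h6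
        h7).hasMFDerivWithinAt
    have h8 : IsMIntegralCurveOn (fun t => Φ t x) v (Ioo (-b) b) :=
      h4.mono (Ioo_subset_Ioo (by linarith) hba)
    have h9 := isMIntegralCurveOn_Ioo_eqOn_of_contMDiff_boundaryless (t₀ := 0)
      (by constructor <;> linarith) hv1 h8 h5 (by
        show Φ 0 x = _
        rw [h3, hΨ0, (extChartAt I x0).left_inv h1])
    exact h9 ht
  have hopenQ : IsOpen {q : ℝ × X | q.1 ∈ Ioo (-b) b ∧ q.2 ∈ W} :=
    (isOpen_Ioo.preimage continuous_fst).inter (hWo.preimage continuous_snd)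
  have hmemQ : ((0 : ℝ), x0) ∈ {q : ℝ × X | q.1 ∈ Ioo (-b) b ∧ q.2 ∈ W} :=
    ⟨by constructor <;> simp <;> linarith, hx0W⟩
  filter_upwards [hopenQ.mem_nhds hmemQ] with q hq
  have hcongr : (fun q : ℝ × X => Φ q.1 q.2) =ᶠ[𝓝 q]
      fun q => (extChartAt I x0).symm (Ψ q.1 (extChartAt I x0 q.2)) := by
    filter_upwards [hopenQ.mem_nhds hq] with r hr
    exact hform r hr.1 hr.2
  refine ContMDiffAt.congr_of_eventuallyEq ?_ hcongr
  obtain ⟨h1, h2, h3, h4⟩ := hW hq.2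
  have hq1 : q.1 ∈ Ioo (-ε) ε := ⟨by linarith [hq.1.1], by linarith [hq.1.2]⟩
  have h5 : ContMDiffAt 𝓘(ℝ, E) I n (extChartAt I x0).symm (Ψ q.1 (extChartAt I x0 q.2)) :=
    (contMDiffOn_extChartAt_symm x0).contMDiffAt (hopen.mem_nhds (hΨd _ h2 q.1 hq1).1)
  have h6 : ContMDiffAt I 𝓘(ℝ, E) n (extChartAt I x0) q.2 :=
    contMDiffAt_extChartAt' (by rwa [← extChartAt_source I])
  have h7 : ContMDiffAt ((𝓘(ℝ, ℝ)).prod I) 𝓘(ℝ, ℝ × E) n
      (fun q : ℝ × X => (q.1, extChartAt I x0 q.2)) q := by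
    have h8 : ContMDiffAt ((𝓘(ℝ, ℝ)).prod I) 𝓘(ℝ, ℝ) n (fun q : ℝ × X => q.1) q := contMDiffAt_fst
    have h9 : ContMDiffAt ((𝓘(ℝ, ℝ)).prod I) 𝓘(ℝ, E) n (fun q : ℝ × X => extChartAt I x0 q.2) q :=
      ContMDiffAt.comp q h6 contMDiffAt_snd
    exact h8.prodMk_space h9
  have h10 : ContMDiffAt ((𝓘(ℝ, ℝ)).prod I) 𝓘(ℝ, E) n
      (fun q : ℝ × X => Ψ q.1 (extChartAt I x0 q.2)) q :=
    ContMDiffAt.comp q (g := fun r : ℝ × E => Ψ r.1 r.2) hΨ.contMDiff.contMDiffAt h7
  exact ContMDiffAt.comp q (g := (extChartAt I x0).symm) h5 h10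

/-- group law -/
theorem mflow_add (hv : ContMDiff I I.tangent 1 (fun x => (⟨x, v x⟩ : TangentBundle I X)))
    {Φ : ℝ → X → X} (h0 : ∀ x, Φ 0 x = x) (hΦ : ∀ x, IsMIntegralCurve (fun t => Φ t x) v)
    (s t : ℝ) (x : X) : Φ (s + t) x = Φ s (Φ t x) := by
  have h1 : IsMIntegralCurve (fun r => Φ (r + t) x) v := (hΦ x).comp_add t
  have h2 := isMIntegralCurve_Ioo_eq_of_contMDiff_boundaryless (t₀ := 0) hv h1 (hΦ (Φ t x))
    (by simp [h0])
  exact congrFun h2 s

/-- **Smoothness of the flow** of a complete `C^n` vector field on a manifold. -/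
theorem contMDiff_flow {n : ℕ∞} (hn : 1 ≤ n)
    (hv : ContMDiff I I.tangent n (fun x => (⟨x, v x⟩ : TangentBundle I X)))
    {Φ : ℝ → X → X} (h0 : ∀ x, Φ 0 x = x) (hΦ : ∀ x, IsMIntegralCurve (fun t => Φ t x) v) :
    ContMDiff ((𝓘(ℝ, ℝ)).prod I) I n (fun q : ℝ × X => Φ q.1 q.2) := by
  have hv1 : ContMDiff I I.tangent 1 (fun x => (⟨x, v x⟩ : TangentBundle I X)) :=
    hv.of_le (by exact_mod_cast hn)
  have hloc : ∀ y : X, ∀ᶠ q : ℝ × X in 𝓝 (0, y),
      ContMDiffAt ((𝓘(ℝ, ℝ)).prod I) I n (fun q : ℝ × X => Φ q.1 q.2) q := fun y =>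
    contMDiffAt_flow_local hn hv y one_pos (Eventually.of_forall h0)
      (Eventually.of_forall fun x => (hΦ x).isMIntegralCurveOn _)
  rintro ⟨t, x⟩
  obtain ⟨A, hA⟩ : ∃ A : Set ℝ, A = {t | ContMDiffAt ((𝓘(ℝ, ℝ)).prod I) I n
    (fun q : ℝ × X => Φ q.1 q.2) (t, x)} := ⟨_, rfl⟩
  have hstep : ∀ t1 : ℝ, ∃ η > 0, ∀ t' ∈ ball t1 η, ∀ t'' ∈ ball t1 η, t' ∈ A → t'' ∈ A := by
    intro t1
    have h2 : Tendsto (fun r : ℝ × ℝ => (r.2 - r.1, Φ r.1 x)) (𝓝 (t1, t1))
        (𝓝 ((0 : ℝ), Φ t1 x)) := by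
      have h3 : ContinuousAt (fun r : ℝ × ℝ => (r.2 - r.1, Φ r.1 x)) (t1, t1) := by
        refine ContinuousAt.prodMk (by fun_prop) ?_
        exact ContinuousAt.comp (f := fun r : ℝ × ℝ => r.1) (g := fun s => Φ s x)
          (hΦ x).continuous.continuousAt continuousAt_fst
      simpa [ContinuousAt] using h3
    have h4 := h2.eventually (hloc (Φ t1 x))
    rw [Metric.eventually_nhds_iff_ball] at h4
    obtain ⟨η, hη, H⟩ := h4
    refine ⟨η, hη, fun t' ht' t'' ht'' hA' => ?_⟩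
    have h5 := H (t', t'') (by
      rw [← ball_prod_same]
      exact ⟨ht', ht''⟩)
    rw [hA] at hA' ⊢
    simp only [mem_ofPred_eq] at hA' ⊢
    simp only at h5
    have h6 : (fun q : ℝ × X => Φ q.1 q.2) = (fun q : ℝ × X => Φ q.1 q.2) ∘
        (fun q : ℝ × X => (q.1 - t', Φ t' q.2)) := by
      funext q
      simp only [Function.comp]
      rw [← mflow_add hv1 h0 hΦ]
      congr 1
      ring
    rw [h6]
    have h7 : ContMDiffAt ((𝓘(ℝ, ℝ)).prod I) ((𝓘(ℝ, ℝ)).prod I) n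
        (fun q : ℝ × X => (q.1 - t', Φ t' q.2)) (t'', x) := by
      refine ContMDiffAt.prodMk ?_ ?_
      · have h9 : ContMDiff 𝓘(ℝ, ℝ) 𝓘(ℝ, ℝ) n (fun s : ℝ => s - t') := by
          refine ContDiff.contMDiff ?_
          fun_prop
        exact ContMDiffAt.comp (t'', x) (g := fun s : ℝ => s - t') h9.contMDiffAt contMDiffAt_fst
      · have h8 : ContMDiffAt ((𝓘(ℝ, ℝ)).prod I) ((𝓘(ℝ, ℝ)).prod I) n
            (fun q : ℝ × X => (t', q.2)) (t'', x) :=
          contMDiffAt_const.prodMk contMDiffAt_snd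
        exact ContMDiffAt.comp (t'', x) (g := fun q : ℝ × X => Φ q.1 q.2) hA' h8
    exact ContMDiffAt.comp (t'', x) h5 h7
  have hA0 : (0 : ℝ) ∈ A := by
    rw [hA]
    exact (hloc x).self_of_nhds
  have hclopen : IsClopen A := by
    constructor
    · rw [← closure_subset_iff_isClosed]
      intro t1 ht1
      obtain ⟨η, hη, H⟩ := hstep t1
      obtain ⟨t', ht', h9⟩ := Metric.mem_closure_iff.1 ht1 η hη
      exact H t' (by rw [mem_ball, dist_comm]; exact h9) t1 (mem_ball_self hη) ht'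
    · rw [Metric.isOpen_iff]
      intro t1 ht1
      obtain ⟨η, hη, H⟩ := hstep t1
      exact ⟨η, hη, fun t'' ht'' => H t1 (mem_ball_self hη) t'' ht'' ht1⟩
  have huniv : A = univ := by
    rcases isClopen_iff.1 hclopen with h | h
    · rw [h] at hA0
      exact absurd hA0 (by simp)
    · exact h
  have : t ∈ A := by rw [huniv]; trivial
  rw [hA] at this
  exact this

end Man

end Pool.Agent.BL.Flow
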