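import Pool.Agent.Lib.MP_ccbbf6_gt.ML

/-!
The composition operator `γ ↦ f ∘ γ` on `C(K, E)`, `K` compact, is of class `C^n` when `f` is.
-/

namespace Pool.Agent.BL.Flow

open Set Metric Filter Topology
open scoped ContDiff NNReal

universe u

section Nem

set_option linter.unusedSectionVars false

variable {K : Type*} [TopologicalSpace K] [CompactSpace K]
variable {E F : Type u} [NormedAddCommGroup E] [NormedSpace ℝ E]
  [NormedAddCommGroup F] [NormedSpace ℝ F]

/-- The composition operator on continuous maps. -/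
def nem (K : Type*) [TopologicalSpace K] (f : E → F) (hf : Continuous f) (γ : C(K, E)) : C(K, F) :=
  ⟨fun t => f (γ t), hf.comp γ.continuous⟩

@[simp] lemma nem_apply (f : E → F) (hf : Continuous f) (γ : C(K, E)) (t : K) :
    nem K f hf γ t = f (γ t) := rfl

lemma continuous_nem (f : E → F) (hf : Continuous f) : Continuous (nem K f hf) :=
  ContinuousMap.continuous_postcomp ⟨f, hf⟩

/-- Pointwise application of a continuous family of operators. -/
noncomputable def appL (K : Type*) [TopologicalSpace K] [CompactSpace K]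
    (E F : Type u) [NormedAddCommGroup E] [NormedSpace ℝ E]
    [NormedAddCommGroup F] [NormedSpace ℝ F] :
    C(K, E →L[ℝ] F) →L[ℝ] C(K, E) →L[ℝ] C(K, F) :=
  LinearMap.mkContinuous₂
    (LinearMap.mk₂ ℝ (fun (A : C(K, E →L[ℝ] F)) (h : C(K, E)) =>
      (⟨fun t => A t (h t), A.continuous.clm_apply h.continuous⟩ : C(K, F)))
      (fun A B h => by ext t; simp)
      (fun c A h => by ext t; simp)
      (fun A h k => by ext t; simp)
      (fun c A h => by ext t; simp))
    1
    (fun A h => by
      rw [one_mul]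
      refine (ContinuousMap.norm_le _ (by positivity)).2 (fun t => ?_)
      refine ((A t).le_opNorm (h t)).trans ?_
      have h1 : ‖A t‖ ≤ ‖A‖ := A.norm_coe_le_norm t
      have h2 : ‖h t‖ ≤ ‖h‖ := h.norm_coe_le_norm t
      have h3 : 0 ≤ ‖A t‖ := norm_nonneg _
      have h4 : 0 ≤ ‖h t‖ := norm_nonneg _
      exact mul_le_mul h1 h2 h4 (h3.trans h1))

@[simp] lemma appL_apply (A : C(K, E →L[ℝ] F)) (h : C(K, E)) (t : K) :
    appL K E F A h t = A t (h t) := rfl

/-- The composition operator is differentiable. -/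
lemma hasFDerivAt_nem (f : E → F) (hf : ContDiff ℝ 1 f) (γ : C(K, E)) :
    HasFDerivAt (nem K f hf.continuous)
      (appL K E F (nem K (fderiv ℝ f) (hf.continuous_fderiv one_ne_zero) γ)) γ := by
  rw [hasFDerivAt_iff_isLittleO_nhds_zero, Asymptotics.isLittleO_iff]
  intro ε hε
  have hc := (continuous_nem (K := K) (fderiv ℝ f) (hf.continuous_fderiv one_ne_zero)).tendsto γ
  rw [Metric.tendsto_nhds_nhds] at hc
  obtain ⟨δ, hδ, H⟩ := hc ε hε
  filter_upwards [Metric.ball_mem_nhds (0 : C(K, E)) hδ] with h hh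
  rw [mem_ball_zero_iff] at hh
  refine (ContinuousMap.norm_le _ (by positivity)).2 (fun t => ?_)
  have key : ∀ y ∈ segment ℝ (γ t) (γ t + h t), ‖fderiv ℝ f y - fderiv ℝ f (γ t)‖ ≤ ε := by
    intro y hy
    have hy1 : ‖y - γ t‖ ≤ ‖h t‖ := by
      have := norm_sub_le_of_mem_segment hy
      simpa using this
    let η : C(K, E) := γ + ContinuousMap.const K (y - γ t)
    have hη : dist η γ < δ := by
      have h1 : dist η γ = ‖η - γ‖ := dist_eq_norm _ _
      have h2 : η - γ = ContinuousMap.const K (y - γ t) := by simp [η]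
      rw [h1, h2]
      have h3 : ‖ContinuousMap.const K (y - γ t)‖ ≤ ‖h‖ := by
        refine (ContinuousMap.norm_le _ (norm_nonneg _)).2 (fun s => ?_)
        exact hy1.trans (h.norm_coe_le_norm t)
      exact lt_of_le_of_lt h3 hh
    have h4 := H hη
    have h5 : dist (nem K (fderiv ℝ f) (hf.continuous_fderiv one_ne_zero) η t)
        (nem K (fderiv ℝ f) (hf.continuous_fderiv one_ne_zero) γ t) ≤ ε :=
      (ContinuousMap.dist_apply_le_dist t).trans h4.le
    rw [dist_eq_norm] at h5
    have h6 : η t = y := by simp [η]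
    simpa [h6] using h5
  have hmv := (convex_segment (𝕜 := ℝ) (γ t) (γ t + h t)).norm_image_sub_le_of_norm_fderiv_le'
    (f := f) (φ := fderiv ℝ f (γ t)) (C := ε)
    (fun y _ => (hf.differentiable one_ne_zero).differentiableAt)
    key (left_mem_segment ℝ _ _) (right_mem_segment ℝ _ _)
  have h7 : ‖f (γ t + h t) - f (γ t) - fderiv ℝ f (γ t) (h t)‖ ≤ ε * ‖h t‖ := by
    simpa using hmv
  calc ‖(nem K f hf.continuous (γ + h) - nem K f hf.continuous γ -
        appL K E F (nem K (fderiv ℝ f) (hf.continuous_fderiv one_ne_zero) γ) h) t‖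
      = ‖f (γ t + h t) - f (γ t) - fderiv ℝ f (γ t) (h t)‖ := by simp
    _ ≤ ε * ‖h t‖ := h7
    _ ≤ ε * ‖h‖ := by
        gcongr
        exact h.norm_coe_le_norm t

end Nem

/-- The composition operator is of class `C^n`. -/
theorem contDiff_nem_nat {K : Type*} [TopologicalSpace K] [CompactSpace K]
    {E : Type u} [NormedAddCommGroup E] [NormedSpace ℝ E] (n : ℕ) :
    ∀ {F : Type u} [NormedAddCommGroup F] [NormedSpace ℝ F] (f : E → F) (hf : ContDiff ℝ n f),
      ContDiff ℝ n (nem K f hf.continuous) := by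
  induction n with
  | zero =>
    intro F _ _ f hf
    have h0 : ContDiff ℝ 0 f := by exact_mod_cast hf
    have : ContDiff ℝ 0 (nem K f hf.continuous) := contDiff_zero.2 (continuous_nem f hf.continuous)
    exact_mod_cast this
  | succ n ih =>
    intro F _ _ f hf
    have hf1 : ContDiff ℝ 1 f := hf.of_le (by
      have : (1 : ℕ∞) ≤ ((n + 1 : ℕ) : ℕ∞) := by
        exact_mod_cast Nat.le_add_left 1 n
      exact_mod_cast this)
    have hder : ContDiff ℝ n (fderiv ℝ f) := by
      refine hf.fderiv_right ?_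
      push_cast
      rfl
    have hcast : (((n + 1 : ℕ) : ℕ∞) : WithTop ℕ∞) = (n : WithTop ℕ∞) + 1 := by push_cast; rfl
    have hgoal : ContDiff ℝ ((n : WithTop ℕ∞) + 1) (nem K f hf.continuous) := by
      rw [contDiff_succ_iff_hasFDerivAt]
      refine ⟨fun γ => appL K E F (nem K (fderiv ℝ f) hder.continuous γ), ?_, ?_⟩
      · exact (appL K E F).contDiff.comp (ih (fderiv ℝ f) hder)
      · intro γ
        exact hasFDerivAt_nem f hf1 γ
    exact_mod_cast hgoal

theorem contDiff_nem {K : Type*} [TopologicalSpace K] [CompactSpace K]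
    {E F : Type u} [NormedAddCommGroup E] [NormedSpace ℝ E]
    [NormedAddCommGroup F] [NormedSpace ℝ F] {n : ℕ∞} (f : E → F) (hf : ContDiff ℝ n f) :
    ContDiff ℝ n (nem K f hf.continuous) := by
  rcases eq_or_ne n ⊤ with rfl | hn
  · refine contDiff_infty.2 (fun m => ?_)
    exact contDiff_nem_nat m f (hf.of_le (by exact_mod_cast le_top))
  · lift n to ℕ using hn
    exact contDiff_nem_nat n f hf

end Pool.Agent.BL.Flow
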