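import Pool.Agent.Lib.MP_ccbbf6_gt.Flow.OUniq

/-!
# OGlob: global existence

JOB OGlob.
-/

set_option autoImplicit false

open MeasureTheory Set Filter Topology Real

noncomputable section

namespace PPF

/-- a solution on `Ioo a b` which has a limit at `b` extends beyond `b`. PROOF:
`(hV.contDiffAt (x := l)).exists_forall_mem_closedBall_exists_eq_forall_mem_Ioo_hasDerivAt` gives `r, ε`
such that from every point of `closedBall l r` there is a solution of duration `ε`; choose `t₀ ∈ Ioo a b`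
with `b - t₀ < ε / 2` and `c t₀ ∈ closedBall l r` (limit), take the solution `α` with `α t₀ = c t₀` on
`Ioo (t₀ - ε) (t₀ + ε)` (the lemma has the initial time as a parameter; or shift), and patch with
`sol_patch` (intervals `Ioo a b`, `Ioo (max a (t₀ - ε)) (t₀ + ε)`). -/
theorem sol_extend_right {F : Type*} [NormedAddCommGroup F] [NormedSpace ℝ F] [CompleteSpace F]
    {V : F → F} (hV : ContDiff ℝ 1 V) {a b : ℝ} (hab : a < b) {c : ℝ → F}
    (hc : ∀ t ∈ Ioo a b, HasDerivAt c (V (c t)) t) {l : F} (hl : Tendsto c (𝓝[<] b) (𝓝 l)) :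
    ∃ b' > b, ∃ c' : ℝ → F, EqOn c' c (Ioo a b) ∧ ∀ t ∈ Ioo a b', HasDerivAt c' (V (c' t)) t := by
  obtain ⟨r, hr, ε, hε, H⟩ :=
    (hV.contDiffAt (x := l)).exists_forall_mem_closedBall_exists_eq_forall_mem_Ioo_hasDerivAt 0
  have h1 : ∀ᶠ t in 𝓝[<] b, c t ∈ Metric.closedBall l r :=
    hl.eventually (Metric.closedBall_mem_nhds l hr)
  have h2 : ∀ᶠ t in 𝓝[<] b, t ∈ Ioo (max a (b - ε / 2)) b :=
    Ioo_mem_nhdsLT (max_lt hab (by linarith))
  obtain ⟨t₀, ht1, ht2⟩ := (h1.and h2).exists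
  have ht3 : a < t₀ := lt_of_le_of_lt (le_max_left _ _) ht2.1
  have ht4 : b - ε / 2 < t₀ := lt_of_le_of_lt (le_max_right _ _) ht2.1
  have ht5 : t₀ < b := ht2.2
  obtain ⟨α, hα0, hα⟩ := H (c t₀) ht1
  obtain ⟨c'', h3, -, h5⟩ := sol_patch hV (a := a) (b := b) (a' := max a (t₀ - ε)) (b' := t₀ + ε)
    (t₀ := t₀) (c := c) (c' := fun t => α (t - t₀)) (le_max_left _ _) (by linarith)
    ⟨max_lt ht3 (by linarith), ht5⟩ hc (fun t ht => by
      have h6 : t - t₀ ∈ Ioo (0 - ε) (0 + ε) := by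
        have := lt_of_le_of_lt (le_max_right a (t₀ - ε)) ht.1
        exact ⟨by linarith, by linarith [ht.2]⟩
      exact (hα _ h6).comp_sub_const t t₀) (by simp [hα0])
  exact ⟨t₀ + ε, by linarith, c'', h3, h5⟩

/-- the same on the left (apply `sol_extend_right` to `-V` and `fun t => c (-t)`) -/
theorem sol_extend_left {F : Type*} [NormedAddCommGroup F] [NormedSpace ℝ F] [CompleteSpace F]
    {V : F → F} (hV : ContDiff ℝ 1 V) {a b : ℝ} (hab : a < b) {c : ℝ → F}
    (hc : ∀ t ∈ Ioo a b, HasDerivAt c (V (c t)) t) {l : F} (hl : Tendsto c (𝓝[>] a) (𝓝 l)) :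
    ∃ a' < a, ∃ c' : ℝ → F, EqOn c' c (Ioo a b) ∧ ∀ t ∈ Ioo a' b, HasDerivAt c' (V (c' t)) t := by
  have hneg : ∀ (W : F → F) (d : ℝ → F) (t : ℝ), HasDerivAt d (W (d (-t))) (-t) →
      HasDerivAt (fun s => d (-s)) (-W (d (-t))) t := by
    intro W d t h
    have := HasDerivAt.scomp t h (hasDerivAt_neg t)
    rwa [neg_one_smul] at this
  have hl' : Tendsto (fun t => c (-t)) (𝓝[<] (-a)) (𝓝 l) := by
    apply hl.comp
    rw [tendsto_nhdsWithin_iff]
    constructor
    · have : Tendsto (fun t : ℝ => -t) (𝓝 (-a)) (𝓝 (- -a)) := (continuous_neg.tendsto _)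
      rw [neg_neg] at this
      exact this.mono_left nhdsWithin_le_nhds
    · filter_upwards [self_mem_nhdsWithin] with t ht
      have : t < -a := ht
      show a < -t
      linarith
  obtain ⟨b', hb', c', h1, h2⟩ := sol_extend_right (V := fun x => - V x) hV.neg
    (a := -b) (b := -a) (by linarith) (c := fun t => c (-t))
    (fun t ht => hneg V c t (hc (-t) ⟨by linarith [ht.2], by linarith [ht.1]⟩)) hl'
  refine ⟨-b', by linarith, fun t => c' (-t), fun t ht => ?_, fun t ht => ?_⟩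
  · have := h1 (x := -t) ⟨by linarith [ht.2], by linarith [ht.1]⟩
    show c' (-t) = c t
    rw [this]
    show c (- -t) = c t
    rw [neg_neg]
  · have h3 := hneg (fun x => - V x) c' t (h2 (-t) ⟨by linarith [ht.2], by linarith [ht.1]⟩)
    rwa [neg_neg] at h3

/-- gluing solutions on symmetric intervals -/
theorem oglob_glue {F : Type*} [NormedAddCommGroup F] [NormedSpace ℝ F]
    {V : F → F} (hV : ContDiff ℝ 1 V) {z : F} {U : Set ℝ} (hU : IsOpen U) {A : ℝ → ℝ}
    (hA : ∀ s ∈ U, |s| < A s) {f : ℝ → ℝ → F} (hf0 : ∀ s ∈ U, f (A s) 0 = z)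
    (hf : ∀ s ∈ U, ∀ t ∈ Ioo (-(A s)) (A s), HasDerivAt (f (A s)) (V (f (A s) t)) t) :
    ∀ t ∈ U, HasDerivAt (fun s => f (A s) s) (V (f (A t) t)) t := by
  intro t ht
  have h1 : ∀ᶠ s in 𝓝 t, s ∈ U := hU.mem_nhds ht
  have h2 : ∀ᶠ s in 𝓝 t, |s| < A t :=
    (continuous_abs.tendsto t).eventually_lt_const (hA t ht)
  have h3 : (fun s => f (A s) s) =ᶠ[𝓝 t] f (A t) := by
    filter_upwards [h1, h2] with s hs1 hs2
    have h4 : |s| < min (A s) (A t) := lt_min (hA s hs1) hs2
    have h5 : 0 < min (A s) (A t) := lt_of_le_of_lt (abs_nonneg s) h4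
    have h6 := sol_unique hV (a := -(min (A s) (A t))) (b := min (A s) (A t)) (t₀ := 0)
      (c := f (A s)) (c' := f (A t)) ⟨by linarith, h5⟩
      (fun r hr => hf s hs1 r ⟨by linarith [hr.1, min_le_left (A s) (A t)],
        by linarith [hr.2, min_le_left (A s) (A t)]⟩)
      (fun r hr => hf t ht r ⟨by linarith [hr.1, min_le_right (A s) (A t)],
        by linarith [hr.2, min_le_right (A s) (A t)]⟩)
      (by rw [hf0 s hs1, hf0 t ht])
    exact h6 (abs_lt.1 h4)
  refine HasDerivAt.congr_of_eventuallyEq (hf t ht t (abs_lt.1 (hA t ht))) h3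

/-- global existence: it suffices that every solution on a bounded symmetric interval has limits
at both ends. PROOF: let `S` be the set of `T > 0` for which a solution on `Ioo (-T) T` with value `z` at
`0` exists. Local existence: `S` is nonempty. If `S` is not bounded above choose `γ a` for every `a > 0`
(restrict) and take `fun t => γ (|t| + 1) t` (compare Mathlib
`Geometry/Manifold/IntegralCurve/UniformTime.lean`; uniqueness from `sol_unique`). If `S` is bounded let
`T = sSup S`; in the same way there is a solution on `Ioo (-T) T` (`fun t => γ ((|t| + T) / 2) t`, where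
`(|t| + T) / 2 < T` is below an element of `S`); by `h`, `sol_extend_right` and then `sol_extend_left` it
extends to `Ioo (-T') T'` with `T' > T`, a contradiction. -/
theorem glob_exists {F : Type*} [NormedAddCommGroup F] [NormedSpace ℝ F] [CompleteSpace F]
    {V : F → F} (hV : ContDiff ℝ 1 V) (z : F)
    (h : ∀ T > 0, ∀ c : ℝ → F, c 0 = z → (∀ t ∈ Ioo (-T) T, HasDerivAt c (V (c t)) t) →
      (∃ l, Tendsto c (𝓝[<] T) (𝓝 l)) ∧ (∃ l, Tendsto c (𝓝[>] (-T)) (𝓝 l))) :
    ∃ c : ℝ → F, c 0 = z ∧ ∀ t, HasDerivAt c (V (c t)) t := by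
  set S : Set ℝ := {T | 0 < T ∧ ∃ c : ℝ → F, c 0 = z ∧
    ∀ t ∈ Ioo (-T) T, HasDerivAt c (V (c t)) t} with hS
  have hne : S.Nonempty := by
    obtain ⟨α, hα0, ε, hε, hα⟩ :=
      (hV.contDiffAt (x := z)).exists_forall_mem_closedBall_exists_eq_forall_mem_Ioo_hasDerivAt₀ 0
    rw [zero_sub, zero_add] at hα
    exact ⟨ε, hε, α, hα0, hα⟩
  have hdown : ∀ T ∈ S, ∀ a, 0 < a → a ≤ T → a ∈ S := by
    rintro T ⟨hT, c, hc0, hc⟩ a ha haT
    exact ⟨ha, c, hc0, fun t ht => hc t ⟨by linarith [ht.1], by linarith [ht.2]⟩⟩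
  by_cases hb : BddAbove S
  · exfalso
    set T := sSup S with hT
    obtain ⟨T₀, hT₀⟩ := hne
    have hT0 : 0 < T := lt_of_lt_of_le hT₀.1 (le_csSup hb hT₀)
    have hlt : ∀ a, 0 < a → a < T → a ∈ S := by
      intro a ha haT
      obtain ⟨b, hb1, hb2⟩ := exists_lt_of_lt_csSup ⟨T₀, hT₀⟩ haT
      exact hdown b hb1 a ha hb2.le
    have hex : ∀ a : ℝ, ∃ c : ℝ → F, 0 < a → a < T → c 0 = z ∧
        ∀ t ∈ Ioo (-a) a, HasDerivAt c (V (c t)) t := by
      intro a
      by_cases h1 : 0 < a ∧ a < T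
      · obtain ⟨-, c, hc⟩ := hlt a h1.1 h1.2
        exact ⟨c, fun _ _ => hc⟩
      · exact ⟨fun _ => z, fun h2 h3 => absurd ⟨h2, h3⟩ h1⟩
    choose f hf using hex
    have hA : ∀ s ∈ Ioo (-T) T, |s| < (|s| + T) / 2 ∧ 0 < (|s| + T) / 2 ∧ (|s| + T) / 2 < T := by
      intro s hs
      have h1 : |s| < T := abs_lt.2 hs
      have h2 := abs_nonneg s
      exact ⟨by linarith, by linarith, by linarith⟩
    have hglue := oglob_glue hV (z := z) (U := Ioo (-T) T) isOpen_Ioo (A := fun s => (|s| + T) / 2)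
      (fun s hs => (hA s hs).1) (f := f)
      (fun s hs => (hf _ (hA s hs).2.1 (hA s hs).2.2).1)
      (fun s hs => (hf _ (hA s hs).2.1 (hA s hs).2.2).2)
    have h0 : (0 : ℝ) ∈ Ioo (-T) T := ⟨by linarith, hT0⟩
    have hc0 : (fun s => f ((|s| + T) / 2) s) 0 = z := (hf _ (hA 0 h0).2.1 (hA 0 h0).2.2).1
    obtain ⟨⟨l, hl⟩, ⟨l', hl'⟩⟩ := h T hT0 (fun s => f ((|s| + T) / 2) s) hc0 hglue
    obtain ⟨b', hb', c', h1, h2⟩ := sol_extend_right hV (by linarith) hglue hl
    have hl2 : Tendsto c' (𝓝[>] (-T)) (𝓝 l') := by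
      refine hl'.congr' ?_
      filter_upwards [Ioo_mem_nhdsGT (show -T < T by linarith)] with t ht
      exact (h1 ht).symm
    obtain ⟨a', ha', c'', h3, h4⟩ := sol_extend_left hV (show -T < b' by linarith) h2 hl2
    have hmem : min b' (-a') ∈ S := by
      refine ⟨lt_min (by linarith) (by linarith), c'', ?_, fun t ht => h4 t ⟨?_, ?_⟩⟩
      · rw [h3 (x := 0) ⟨by linarith, by linarith⟩, h1 h0, hc0]
      · linarith [ht.1, min_le_right b' (-a')]
      · linarith [ht.2, min_le_left b' (-a')]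
    have h5 := le_csSup hb hmem
    have h6 : T < min b' (-a') := lt_min hb' (by linarith)
    exact absurd h5 (not_le.2 h6)
  · have hall : ∀ a, 0 < a → a ∈ S := by
      intro a ha
      rw [not_bddAbove_iff] at hb
      obtain ⟨b, hb1, hb2⟩ := hb a
      exact hdown b hb1 a ha hb2.le
    have hex : ∀ a : ℝ, ∃ c : ℝ → F, 0 < a → c 0 = z ∧
        ∀ t ∈ Ioo (-a) a, HasDerivAt c (V (c t)) t := by
      intro a
      by_cases h1 : 0 < a
      · obtain ⟨-, c, hc⟩ := hall a h1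
        exact ⟨c, fun _ => hc⟩
      · exact ⟨fun _ => z, fun h2 => absurd h2 h1⟩
    choose f hf using hex
    have hA : ∀ s : ℝ, |s| < |s| + 1 ∧ 0 < |s| + 1 := by
      intro s
      have h2 := abs_nonneg s
      exact ⟨by linarith, by linarith⟩
    have hglue := oglob_glue hV (z := z) (U := univ) isOpen_univ (A := fun s => |s| + 1)
      (fun s _ => (hA s).1) (f := f) (fun s _ => (hf _ (hA s).2).1) (fun s _ => (hf _ (hA s).2).2)
    exact ⟨fun s => f (|s| + 1) s, (hf _ (hA 0).2).1, fun t => hglue t (mem_univ t)⟩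

end PPF
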