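import Pool.Agent.Lib.MP_ccbbf6_gt.Flow.OUniq

/-!
# OTube: a flow of a `C¹` field is locally Lipschitz and jointly continuous

JOB OTube.
-/

set_option autoImplicit false

open MeasureTheory Set Filter Topology Real

noncomputable section

namespace PPF

variable {F : Type*} [NormedAddCommGroup F] [NormedSpace ℝ F]

/-- `φ` is a (global) flow of `V` -/
structure Fl (V : F → F) (φ : ℝ → F → F) : Prop where
  zero : ∀ z, φ 0 z = z
  deriv : ∀ t z, HasDerivAt (fun s => φ s z) (V (φ t z)) t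

/-- group law (uniqueness of solutions) -/
theorem Fl.add {V : F → F} {φ : ℝ → F → F} (h : Fl V φ) (hV : ContDiff ℝ 1 V) (s t : ℝ) (z : F) :
    φ (s + t) z = φ s (φ t z) := by
  have h1 : (fun r => φ (r + t) z) = fun r => φ r (φ t z) := by
    refine sol_unique_univ hV (t₀ := 0) (fun r => ?_) (fun r => h.deriv r (φ t z)) ?_
    · exact (h.deriv (r + t) z).comp_add_const r t
    · show φ (0 + t) z = φ 0 (φ t z)
      rw [zero_add, h.zero]
  exact congrFun h1 s

theorem Fl.neg_cancel {V : F → F} {φ : ℝ → F → F} (h : Fl V φ) (hV : ContDiff ℝ 1 V) (t : ℝ)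
    (z : F) : φ (-t) (φ t z) = z := by
  rw [← h.add hV, neg_add_cancel, h.zero]

theorem Fl.reverse {V : F → F} {φ : ℝ → F → F} (h : Fl V φ) :
    Fl (fun z => - V z) (fun t => φ (-t)) := by
  refine ⟨fun z => ?_, fun t z => ?_⟩
  · show φ (-0) z = z
    rw [neg_zero, h.zero]
  · have h1 := (h.deriv (-t) z).scomp t (hasDerivAt_neg t)
    rw [neg_one_smul] at h1
    exact h1

/-- the tube around a compact piece of a trajectory: `⋃ t, closedBall (φ t z) 1 = cthickening 1` of a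
compact set is compact (`IsCompact.cthickening`), `fderiv ℝ V` is continuous. -/
theorem Fl.tube_bound [FiniteDimensional ℝ F] {V : F → F} {φ : ℝ → F → F} (h : Fl V φ)
    (hV : ContDiff ℝ 1 V) (z : F) (T : ℝ) :
    ∃ B : ℝ, 0 ≤ B ∧ ∀ t ∈ Icc (-T) T, ∀ y ∈ Metric.closedBall (φ t z) 1, ‖fderiv ℝ V y‖ ≤ B := by
  haveI : ProperSpace F := FiniteDimensional.proper_real F
  have hc : Continuous fun t => φ t z :=
    continuous_iff_continuousAt.2 fun t => (h.deriv t z).continuousAt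
  have hK : IsCompact (Metric.cthickening 1 ((fun t => φ t z) '' Icc (-T) T)) :=
    (isCompact_Icc.image hc).cthickening
  have hd : Continuous (fderiv ℝ V) := hV.continuous_fderiv one_ne_zero
  obtain ⟨C, hC⟩ := hK.exists_bound_of_continuousOn hd.continuousOn
  refine ⟨max C 0, le_max_right _ _, fun t ht y hy => ?_⟩
  refine (hC y ?_).trans (le_max_left _ _)
  exact Metric.mem_cthickening_of_dist_le y (φ t z) 1 _ ⟨t, ht, rfl⟩ (Metric.mem_closedBall.1 hy)

/-- `V` and its linearisation, uniformly in the tube (uniform continuity of `fderiv ℝ V` on the compact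
tube, `Convex.norm_image_sub_le_of_norm_hasFDerivWithin_le'` or `..._fderiv_le'` on the convex set
`closedBall (φ t z) 1 ∩ closedBall y η`, or on the segment). -/
theorem Fl.tube_linear [FiniteDimensional ℝ F] {V : F → F} {φ : ℝ → F → F} (h : Fl V φ)
    (hV : ContDiff ℝ 1 V) (z : F) (T : ℝ) {ε : ℝ} (hε : 0 < ε) :
    ∃ η : ℝ, 0 < η ∧ η ≤ 1 ∧ ∀ t ∈ Icc (-T) T, ∀ y ∈ Metric.closedBall (φ t z) η,
      ‖V y - V (φ t z) - fderiv ℝ V (φ t z) (y - φ t z)‖ ≤ ε * ‖y - φ t z‖ := by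
  haveI : ProperSpace F := FiniteDimensional.proper_real F
  have hc : Continuous fun t => φ t z :=
    continuous_iff_continuousAt.2 fun t => (h.deriv t z).continuousAt
  have hK : IsCompact (Metric.cthickening 1 ((fun t => φ t z) '' Icc (-T) T)) :=
    (isCompact_Icc.image hc).cthickening
  have hd : Continuous (fderiv ℝ V) := hV.continuous_fderiv one_ne_zero
  obtain ⟨δ, hδ, hδ2⟩ := Metric.uniformContinuousOn_iff.1
    (hK.uniformContinuousOn_of_continuous hd.continuousOn) ε hε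
  have hη : 0 < min 1 (δ / 2) := lt_min one_pos (by positivity)
  refine ⟨min 1 (δ / 2), hη, min_le_left _ _, fun t ht y hy => ?_⟩
  have hmem : ∀ x ∈ Metric.closedBall (φ t z) (min 1 (δ / 2)),
      x ∈ Metric.cthickening 1 ((fun t => φ t z) '' Icc (-T) T) := fun x hx =>
    Metric.mem_cthickening_of_dist_le x (φ t z) 1 _ ⟨t, ht, rfl⟩
      ((Metric.mem_closedBall.1 hx).trans (min_le_left _ _))
  have hself : φ t z ∈ Metric.closedBall (φ t z) (min 1 (δ / 2)) :=
    Metric.mem_closedBall_self hη.le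
  refine Convex.norm_image_sub_le_of_norm_fderiv_le' (𝕜 := ℝ)
    (s := Metric.closedBall (φ t z) (min 1 (δ / 2)))
    (fun x _ => hV.differentiable one_ne_zero x) (fun x hx => ?_)
    (convex_closedBall _ _) hself hy
  have h1 := hδ2 x (hmem x hx) (φ t z) (hmem _ hself) (by
    have h2 := Metric.mem_closedBall.1 hx
    have h3 : min 1 (δ / 2) ≤ δ / 2 := min_le_right _ _
    linarith)
  rw [dist_eq_norm] at h1
  exact h1.le

/-- forward estimate. Let `B` bound `‖fderiv ℝ V‖` in the tube; `V` is `B`-Lipschitz on every ball of the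
tube (`Convex.lipschitzOnWith_of_nnnorm_fderiv_le`, `convex_closedBall`). If `‖x - z‖ * exp (B * T) < 1`
then `‖φ t x - φ t z‖ < 1` for `t ∈ Icc 0 T`: otherwise let `t₁` be the first time with `≥ 1` (`sInf` of a
closed set); `dist_le_of_trajectories_ODE_of_mem` on `Icc 0 t₁` with `s t = closedBall (φ t z) 1` gives
`‖φ t₁ x - φ t₁ z‖ ≤ ‖x - z‖ exp (B t₁) < 1`. Then apply it again with two points `x, y`. -/
theorem Fl.close_right [FiniteDimensional ℝ F] {V : F → F} {φ : ℝ → F → F} (h : Fl V φ)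
    (hV : ContDiff ℝ 1 V) (z : F) (T : ℝ) :
    ∃ δ > 0, ∃ L : ℝ, 0 ≤ L ∧ ∀ x ∈ Metric.ball z δ, ∀ t ∈ Icc 0 T,
      φ t x ∈ Metric.closedBall (φ t z) 1 ∧
      ∀ y ∈ Metric.ball z δ, ‖φ t x - φ t y‖ ≤ L * ‖x - y‖ := by
  obtain ⟨B, hB0, hB⟩ := h.tube_bound hV z T
  have hE : 0 < Real.exp (B * T) := Real.exp_pos _
  have hLip : ∀ t ∈ Icc (-T) T, LipschitzOnWith (⟨B, hB0⟩ : NNReal) V
      (Metric.closedBall (φ t z) 1) := fun t ht =>
    Convex.lipschitzOnWith_of_nnnorm_fderiv_le (𝕜 := ℝ)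
      (fun x _ => hV.differentiable one_ne_zero x) (fun x hx => hB t ht x hx)
      (convex_closedBall _ _)
  have hcx : ∀ x, Continuous fun t => φ t x := fun x =>
    continuous_iff_continuousAt.2 fun t => (h.deriv t x).continuousAt
  -- comparison of two trajectories which stay in the tube
  have hcomp : ∀ x y : F, ∀ t₁ : ℝ, t₁ ≤ T →
      (∀ t ∈ Ico 0 t₁, φ t x ∈ Metric.closedBall (φ t z) 1) →
      (∀ t ∈ Ico 0 t₁, φ t y ∈ Metric.closedBall (φ t z) 1) →
      ∀ t ∈ Icc 0 t₁, dist (φ t x) (φ t y) ≤ dist x y * Real.exp (B * T) := by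
    intro x y t₁ ht₁ hx hy t ht
    have h1 := dist_le_of_trajectories_ODE_of_mem (v := fun _ => V)
      (s := fun t => Metric.closedBall (φ t z) 1) (K := (⟨B, hB0⟩ : NNReal))
      (f := fun t => φ t x) (g := fun t => φ t y) (δ := dist x y) (a := 0) (b := t₁)
      (fun t ht => hLip t ⟨by linarith [ht.1, ht.2], by linarith [ht.2]⟩)
      (hcx x).continuousOn (fun t _ => (h.deriv t x).hasDerivWithinAt) hx
      (hcx y).continuousOn (fun t _ => (h.deriv t y).hasDerivWithinAt) hy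
      (by rw [h.zero, h.zero]) t ht
    refine h1.trans (mul_le_mul_of_nonneg_left ?_ dist_nonneg)
    apply Real.exp_le_exp.2
    show B * (t - 0) ≤ B * T
    exact mul_le_mul_of_nonneg_left (by linarith [ht.2]) hB0
  have hδ : 0 < (Real.exp (B * T) + 1)⁻¹ := by positivity
  have hδE : (Real.exp (B * T) + 1)⁻¹ * Real.exp (B * T) < 1 := by
    rw [inv_mul_lt_iff₀ (by positivity)]
    linarith
  -- trajectories stay in the tube
  have hstay : ∀ x ∈ Metric.ball z (Real.exp (B * T) + 1)⁻¹, ∀ t ∈ Icc 0 T,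
      dist (φ t x) (φ t z) < 1 := by
    intro x hx t ht
    by_contra hlt
    rw [not_lt] at hlt
    have hclosed : IsClosed {s : ℝ | s ∈ Icc 0 T ∧ 1 ≤ dist (φ s x) (φ s z)} :=
      isClosed_Icc.inter (isClosed_le continuous_const ((hcx x).dist (hcx z)))
    have hcomp2 : IsCompact {s : ℝ | s ∈ Icc 0 T ∧ 1 ≤ dist (φ s x) (φ s z)} :=
      isCompact_Icc.of_isClosed_subset hclosed fun s hs => hs.1
    obtain ⟨t₁, ht₁⟩ := hcomp2.exists_isLeast ⟨t, ht, hlt⟩
    have hbefore : ∀ s ∈ Ico 0 t₁, dist (φ s x) (φ s z) < 1 := by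
      intro s hs
      by_contra hge
      rw [not_lt] at hge
      have h2 := ht₁.2 ⟨⟨hs.1, (hs.2.le.trans ht₁.1.1.2)⟩, hge⟩
      linarith [hs.2]
    have h3 := hcomp x z t₁ ht₁.1.1.2 (fun s hs => Metric.mem_closedBall.2 (hbefore s hs).le)
      (fun s _ => Metric.mem_closedBall_self zero_le_one) t₁ ⟨ht₁.1.1.1, le_refl _⟩
    have h4 : dist x z * Real.exp (B * T) < 1 :=
      (mul_lt_mul_of_pos_right (Metric.mem_ball.1 hx) hE).trans hδE
    linarith [ht₁.1.2]
  refine ⟨(Real.exp (B * T) + 1)⁻¹, hδ, Real.exp (B * T), hE.le, fun x hx t ht => ⟨?_, ?_⟩⟩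
  · exact Metric.mem_closedBall.2 (hstay x hx t ht).le
  · intro y hy
    have h1 := hcomp x y T (le_refl _)
      (fun s hs => Metric.mem_closedBall.2 (hstay x hx s ⟨hs.1, hs.2.le⟩).le)
      (fun s hs => Metric.mem_closedBall.2 (hstay y hy s ⟨hs.1, hs.2.le⟩).le) t ht
    rw [dist_eq_norm, dist_eq_norm] at h1
    linarith

/-- two-sided version: `close_right` for the flow and for the reversed flow -/
theorem Fl.close [FiniteDimensional ℝ F] {V : F → F} {φ : ℝ → F → F} (h : Fl V φ)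
    (hV : ContDiff ℝ 1 V) (z : F) (T : ℝ) :
    ∃ δ > 0, ∃ L : ℝ, 0 ≤ L ∧ ∀ x ∈ Metric.ball z δ, ∀ t ∈ Icc (-T) T,
      φ t x ∈ Metric.closedBall (φ t z) 1 ∧
      ∀ y ∈ Metric.ball z δ, ‖φ t x - φ t y‖ ≤ L * ‖x - y‖ := by
  obtain ⟨δ₁, hδ₁, L₁, hL₁, h₁⟩ := h.close_right hV z T
  obtain ⟨δ₂, hδ₂, L₂, hL₂, h₂⟩ := h.reverse.close_right hV.neg z T
  refine ⟨min δ₁ δ₂, lt_min hδ₁ hδ₂, max L₁ L₂, hL₁.trans (le_max_left _ _), ?_⟩
  intro x hx t ht
  have hx1 : x ∈ Metric.ball z δ₁ := Metric.ball_subset_ball (min_le_left _ _) hx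
  have hx2 : x ∈ Metric.ball z δ₂ := Metric.ball_subset_ball (min_le_right _ _) hx
  by_cases ht0 : 0 ≤ t
  · obtain ⟨h3, h4⟩ := h₁ x hx1 t ⟨ht0, ht.2⟩
    refine ⟨h3, fun y hy => ?_⟩
    have hy1 : y ∈ Metric.ball z δ₁ := Metric.ball_subset_ball (min_le_left _ _) hy
    exact (h4 y hy1).trans (mul_le_mul_of_nonneg_right (le_max_left _ _) (norm_nonneg _))
  · rw [not_le] at ht0
    obtain ⟨h3, h4⟩ := h₂ x hx2 (-t) ⟨by linarith, by linarith [ht.1]⟩
    rw [neg_neg] at h3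
    refine ⟨h3, fun y hy => ?_⟩
    have hy2 : y ∈ Metric.ball z δ₂ := Metric.ball_subset_ball (min_le_right _ _) hy
    have h5 := h4 y hy2
    rw [neg_neg] at h5
    exact h5.trans (mul_le_mul_of_nonneg_right (le_max_right _ _) (norm_nonneg _))

/-- joint continuity, from `Fl.close` and continuity in `t` -/
theorem Fl.cont [FiniteDimensional ℝ F] {V : F → F} {φ : ℝ → F → F} (h : Fl V φ)
    (hV : ContDiff ℝ 1 V) : Continuous (fun q : ℝ × F => φ q.1 q.2) := by
  rw [continuous_iff_continuousAt]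
  rintro ⟨t₀, z₀⟩
  obtain ⟨δ, hδ, L, hL, hcl⟩ := h.close hV z₀ (|t₀| + 1)
  have hcz : Continuous fun t => φ t z₀ :=
    continuous_iff_continuousAt.2 fun t => (h.deriv t z₀).continuousAt
  show Tendsto (fun q : ℝ × F => φ q.1 q.2) (𝓝 (t₀, z₀)) (𝓝 (φ t₀ z₀))
  rw [tendsto_iff_norm_sub_tendsto_zero]
  have hlim : Tendsto (fun q : ℝ × F => L * ‖q.2 - z₀‖ + ‖φ q.1 z₀ - φ t₀ z₀‖) (𝓝 (t₀, z₀))
      (𝓝 0) := by
    have h1 : Continuous fun q : ℝ × F => L * ‖q.2 - z₀‖ + ‖φ q.1 z₀ - φ t₀ z₀‖ := by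
      have h2 : Continuous fun q : ℝ × F => φ q.1 z₀ := hcz.comp continuous_fst
      exact (continuous_const.mul (continuous_snd.sub continuous_const).norm).add
        (h2.sub continuous_const).norm
    have h3 := h1.tendsto (t₀, z₀)
    simpa using h3
  refine squeeze_zero' (Filter.Eventually.of_forall fun q => norm_nonneg _) ?_ hlim
  have hU : Metric.ball t₀ 1 ×ˢ Metric.ball z₀ δ ∈ 𝓝 (t₀, z₀) :=
    prod_mem_nhds (Metric.ball_mem_nhds _ one_pos) (Metric.ball_mem_nhds _ hδ)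
  filter_upwards [hU] with q hq
  have ht : q.1 ∈ Icc (-(|t₀| + 1)) (|t₀| + 1) := by
    have h1 := Metric.mem_ball.1 hq.1
    rw [Real.dist_eq, abs_lt] at h1
    have h2 := neg_abs_le t₀
    have h3 := le_abs_self t₀
    exact ⟨by linarith [h1.1], by linarith [h1.2]⟩
  have h1 := (hcl q.2 hq.2 q.1 ht).2 z₀ (Metric.mem_ball_self hδ)
  have h2 : φ q.1 q.2 - φ t₀ z₀ = (φ q.1 q.2 - φ q.1 z₀) + (φ q.1 z₀ - φ t₀ z₀) := by abel
  rw [h2]
  exact (norm_add_le _ _).trans (add_le_add h1 (le_refl _))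

end PPF
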