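import Pool.Agent.Lib.MP_ccbbf6_gt.Flow.OGlob
import Pool.Agent.Lib.MP_ccbbf6_gt.Flow.OTube

/-!
# OVar: the linearised flow

JOB OVar.
-/

set_option autoImplicit false

open MeasureTheory Set Filter Topology Real

noncomputable section

namespace PPF

variable {F : Type*} [NormedAddCommGroup F] [NormedSpace ℝ F]

theorem ovar_right [CompleteSpace F] {T B : ℝ} (hT : 0 < T) {c c' : ℝ → F}
    (hc : ∀ t ∈ Ioo (-T) T, HasDerivAt c (c' t) t) (hB : ∀ t ∈ Ioo (-T) T, ‖c' t‖ ≤ B * ‖c t‖) :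
    ∃ l, Tendsto c (𝓝[<] T) (𝓝 l) := by
  obtain ⟨B', hB'0, hBB'⟩ : ∃ B' : ℝ, 0 ≤ B' ∧ B ≤ B' := ⟨max B 0, le_max_right _ _, le_max_left _ _⟩
  have hB2 : ∀ t ∈ Ioo (-T) T, ‖c' t‖ ≤ B' * ‖c t‖ := fun t ht =>
    (hB t ht).trans (mul_le_mul_of_nonneg_right hBB' (norm_nonneg _))
  obtain ⟨M, hM⟩ : ∃ M, M = ‖c 0‖ * exp (B' * T) := ⟨_, rfl⟩
  have hM0 : 0 ≤ M := by rw [hM]; positivity
  have hbd : ∀ t ∈ Ico 0 T, ‖c t‖ ≤ M := by
    intro t ht
    have hsub : ∀ s ∈ Icc 0 t, s ∈ Ioo (-T) T := fun s hs =>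
      ⟨by linarith [hs.1], lt_of_le_of_lt hs.2 ht.2⟩
    have h1 := norm_le_gronwallBound_of_norm_deriv_right_le (f := c) (f' := c')
      (δ := ‖c 0‖) (K := B') (ε := 0) (a := 0) (b := t)
      (fun s hs => (hc s (hsub s hs)).continuousAt.continuousWithinAt)
      (fun s hs => (hc s (hsub s ⟨hs.1, hs.2.le⟩)).hasDerivWithinAt) le_rfl
      (fun s hs => by rw [add_zero]; exact hB2 s (hsub s ⟨hs.1, hs.2.le⟩)) t ⟨ht.1, le_rfl⟩
    rw [gronwallBound_ε0, sub_zero] at h1
    refine h1.trans ?_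
    rw [hM]
    apply mul_le_mul_of_nonneg_left _ (norm_nonneg _)
    exact Real.exp_le_exp.mpr (mul_le_mul_of_nonneg_left ht.2.le hB'0)
  have hlip : ∀ x ∈ Ico 0 T, ∀ y ∈ Ico 0 T, ‖c y - c x‖ ≤ B' * M * ‖y - x‖ := by
    intro x hx y hy
    refine (convex_Ico 0 T).norm_image_sub_le_of_norm_hasDerivWithin_le (f := c) (f' := c')
      (fun s hs => (hc s ⟨by linarith [hs.1], hs.2⟩).hasDerivWithinAt)
      (fun s hs => (hB2 s ⟨by linarith [hs.1], hs.2⟩).trans
        (mul_le_mul_of_nonneg_left (hbd s hs) hB'0)) hx hy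
  have hcau : Cauchy (map c (𝓝[<] T)) := by
    rw [Metric.cauchy_iff]
    refine ⟨inferInstance, fun ε hε => ?_⟩
    obtain ⟨a, ha⟩ : ∃ a, a = max 0 (T - ε / (B' * M + 1)) := ⟨_, rfl⟩
    have haT : a < T := by
      rw [ha]
      apply max_lt hT
      have : 0 < ε / (B' * M + 1) := by positivity
      linarith
    have ha0 : 0 ≤ a := by rw [ha]; exact le_max_left _ _
    have haε : T - ε / (B' * M + 1) ≤ a := by rw [ha]; exact le_max_right _ _
    refine ⟨c '' Ioo a T, image_mem_map (Ioo_mem_nhdsLT haT), ?_⟩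
    rintro _ ⟨x, hx, rfl⟩ _ ⟨y, hy, rfl⟩
    have h1 := hlip y ⟨ha0.trans hy.1.le, hy.2⟩ x ⟨ha0.trans hx.1.le, hx.2⟩
    rw [dist_eq_norm]
    refine lt_of_le_of_lt h1 ?_
    have h2 : ‖x - y‖ < ε / (B' * M + 1) := by
      rw [Real.norm_eq_abs, abs_lt]
      constructor <;> linarith [hx.1, hx.2, hy.1, hy.2]
    have h3 : (B' * M + 1) * (ε / (B' * M + 1)) = ε := by
      field_simp
    have h4 : (B' * M + 1) * ‖x - y‖ < ε := by
      rw [← h3]
      exact mul_lt_mul_of_pos_left h2 (by positivity)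
    nlinarith [norm_nonneg (x - y)]
  exact cauchy_map_iff_exists_tendsto.mp hcau

/-- solutions of a linear equation `N' = A(t) N` with bounded `A` on a bounded interval have limits at the
ends. PROOF: Gronwall (`norm_le_gronwallBound_of_norm_deriv_right_le` on `[0, t]`, and the reversed curve
for negative times) bounds `N` on `Ioo (-T) T`; hence `N'` is bounded, `N` is Lipschitz on `Ioo (-T) T`,
hence `Tendsto` at the ends (complete space: `cauchy_map` / `LipschitzOnWith` extension / the map is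
uniformly continuous, `UniformContinuousOn`...). -/
theorem lin_limits [CompleteSpace F] {T B : ℝ} (hT : 0 < T) {c c' : ℝ → F}
    (hc : ∀ t ∈ Ioo (-T) T, HasDerivAt c (c' t) t) (hB : ∀ t ∈ Ioo (-T) T, ‖c' t‖ ≤ B * ‖c t‖) :
    (∃ l, Tendsto c (𝓝[<] T) (𝓝 l)) ∧ (∃ l, Tendsto c (𝓝[>] (-T)) (𝓝 l)) := by
  refine ⟨ovar_right hT hc hB, ?_⟩
  have h1 := ovar_right (B := B) hT (c := fun t => c (-t)) (c' := fun t => - c' (-t))
    (fun t ht => by
      have := (hc (-t) ⟨by linarith [ht.2], by linarith [ht.1]⟩).scomp t (hasDerivAt_neg t)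
      simpa [Function.comp_def] using this)
    (fun t ht => by
      rw [norm_neg]
      exact hB (-t) ⟨by linarith [ht.2], by linarith [ht.1]⟩)
  obtain ⟨l, hl⟩ := h1
  refine ⟨l, ?_⟩
  have h2 : Tendsto (fun t : ℝ => -t) (𝓝[>] (-T)) (𝓝[<] T) := by
    rw [tendsto_nhdsWithin_iff]
    constructor
    · have : Tendsto (fun t : ℝ => -t) (𝓝 (-T)) (𝓝 (- -T)) := (continuous_neg).tendsto (-T)
      rw [neg_neg] at this
      exact this.mono_left nhdsWithin_le_nhds
    · filter_upwards [self_mem_nhdsWithin] with t ht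
      have : -T < t := ht
      exact (by linarith : -t < T)
  have h3 := hl.comp h2
  refine h3.congr fun t => ?_
  simp

/-- the linearised flow. PROOF: the field `W (x, N) = (V x, (fderiv ℝ V x).comp N)` on `F × (F →L[ℝ] F)` is
`C¹` (`hV.fderiv_right`). It has global solutions: `glob_exists`; for a solution `c` on `Ioo (-T) T` with
`c 0 = (x, N₀)` the first component is `fun t => φ t x` there (`sol_unique`), so it has limits at the ends
(`φ` is continuous in `t`), `‖fderiv ℝ V (φ t x)‖ ≤ B` on `Icc (-T) T` (`Fl.tube_bound`), so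
`lin_limits` gives the limits of the second component. Let `Φ` be the flow of `W` obtained by choice, it
is an `Fl W Φ`, jointly continuous by `Fl.cont`, and `(Φ t (x, N)).1 = φ t x` by `sol_unique_univ`. Put
`M t z = (Φ t (z, ContinuousLinearMap.id ℝ F)).2`. -/
theorem exists_var [FiniteDimensional ℝ F] {V : F → F} {φ : ℝ → F → F} (h : Fl V φ)
    (hV : ContDiff ℝ 2 V) :
    ∃ M : ℝ → F → (F →L[ℝ] F), (∀ z, M 0 z = ContinuousLinearMap.id ℝ F) ∧
      (∀ t z, HasDerivAt (fun s => M s z) ((fderiv ℝ V (φ t z)).comp (M t z)) t) ∧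
      Continuous (fun q : ℝ × F => M q.1 q.2) := by
  have hV1 : ContDiff ℝ 1 V := hV.of_le (by norm_num)
  have hcomp : CompleteSpace F := FiniteDimensional.complete ℝ F
  obtain ⟨W, hWdef⟩ : ∃ W : F × (F →L[ℝ] F) → F × (F →L[ℝ] F),
      W = fun q => (V q.1, (fderiv ℝ V q.1).comp q.2) := ⟨_, rfl⟩
  have hW : ContDiff ℝ 1 W := by
    rw [hWdef]
    refine (hV1.comp contDiff_fst).prodMk ?_
    have hf : ContDiff ℝ 1 (fderiv ℝ V) := hV.fderiv_right (m := 1) (by norm_num)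
    exact (hf.comp contDiff_fst).clm_comp contDiff_snd
  have hfst : ∀ (c : ℝ → F × (F →L[ℝ] F)) (t : ℝ), HasDerivAt c (W (c t)) t →
      HasDerivAt (fun s => (c s).1) (V (c t).1) t := by
    intro c t hc
    have h1 := (hasFDerivAt_fst (𝕜 := ℝ) (p := c t)).comp_hasDerivAt t hc
    rw [hWdef] at h1
    simpa [Function.comp_def] using h1
  have hsnd : ∀ (c : ℝ → F × (F →L[ℝ] F)) (t : ℝ), HasDerivAt c (W (c t)) t →
      HasDerivAt (fun s => (c s).2) ((fderiv ℝ V (c t).1).comp (c t).2) t := by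
    intro c t hc
    have h1 := (hasFDerivAt_snd (𝕜 := ℝ) (p := c t)).comp_hasDerivAt t hc
    rw [hWdef] at h1
    simpa [Function.comp_def] using h1
  have hglob : ∀ q : F × (F →L[ℝ] F), ∃ c : ℝ → F × (F →L[ℝ] F),
      c 0 = q ∧ ∀ t, HasDerivAt c (W (c t)) t := by
    intro q
    refine glob_exists hW q ?_
    intro T hT c hc0 hc
    have h1 : EqOn (fun t => (c t).1) (fun t => φ t q.1) (Ioo (-T) T) :=
      sol_unique hV1 (t₀ := 0) ⟨by linarith, hT⟩ (fun t ht => hfst c t (hc t ht))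
        (fun t _ => h.deriv t q.1) (by simp [hc0, h.zero])
    have hφc : ∀ t, ContinuousAt (fun s => φ s q.1) t := fun t => (h.deriv t q.1).continuousAt
    obtain ⟨B, _, hB⟩ := h.tube_bound hV1 q.1 T
    have h2 := lin_limits (B := B) hT (c := fun t => (c t).2)
      (c' := fun t => (fderiv ℝ V (c t).1).comp (c t).2)
      (fun t ht => hsnd c t (hc t ht))
      (fun t ht => by
        refine (ContinuousLinearMap.opNorm_comp_le _ _).trans ?_
        apply mul_le_mul_of_nonneg_right _ (norm_nonneg _)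
        have h3 : (c t).1 = φ t q.1 := h1 ht
        rw [h3]
        exact hB t ⟨ht.1.le, ht.2.le⟩ _ (Metric.mem_closedBall_self (by norm_num)))
    obtain ⟨⟨l1, hl1⟩, ⟨l2, hl2⟩⟩ := h2
    have h4 : Tendsto (fun t => (c t).1) (𝓝[<] T) (𝓝 (φ T q.1)) := by
      refine Tendsto.congr' ?_ ((hφc T).tendsto.mono_left nhdsWithin_le_nhds)
      filter_upwards [Ioo_mem_nhdsLT (show -T < T by linarith)] with t ht
      exact (h1 ht).symm
    have h5 : Tendsto (fun t => (c t).1) (𝓝[>] (-T)) (𝓝 (φ (-T) q.1)) := by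
      refine Tendsto.congr' ?_ ((hφc (-T)).tendsto.mono_left nhdsWithin_le_nhds)
      filter_upwards [Ioo_mem_nhdsGT (show -T < T by linarith)] with t ht
      exact (h1 ht).symm
    exact ⟨⟨(φ T q.1, l1), h4.prodMk_nhds hl1⟩, ⟨(φ (-T) q.1, l2), h5.prodMk_nhds hl2⟩⟩
  choose Ψ hΨ0 hΨ using hglob
  have hFl : Fl W (fun t q => Ψ q t) := ⟨hΨ0, fun t q => hΨ q t⟩
  have hcont := hFl.cont hW
  have hfstφ : ∀ q t, (Ψ q t).1 = φ t q.1 := by
    intro q t
    have := sol_unique_univ hV1 (t₀ := 0) (c := fun t => (Ψ q t).1) (c' := fun t => φ t q.1)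
      (fun t => hfst (Ψ q) t (hΨ q t)) (fun t => h.deriv t q.1) (by simp [hΨ0, h.zero])
    exact congrFun this t
  refine ⟨fun t z => (Ψ (z, ContinuousLinearMap.id ℝ F) t).2, fun z => by simp [hΨ0], ?_, ?_⟩
  · intro t z
    have h1 := hsnd (Ψ (z, ContinuousLinearMap.id ℝ F)) t (hΨ _ t)
    rw [hfstφ] at h1
    exact h1
  · have h2 : Continuous (fun q : ℝ × F => (q.1, (q.2, ContinuousLinearMap.id ℝ F))) := by
      fun_prop
    exact continuous_snd.comp (hcont.comp h2)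

end PPF
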