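import Pool.Agent.Lib.MP_ccbbf6_gt.Flow.Global
import Pool.Agent.Lib.MP_ccbbf6_gt.Flow.OVar

/-!
Global flow of a bounded `C^n` vector field; cut-off; smooth local flows of vector fields which are `C^n`
near a point of a finite dimensional space.
-/

namespace Pool.Agent.BL.Flow

open Set Metric Filter Topology MeasureTheory
open scoped ContDiff NNReal

universe u

section Bounded

variable {E : Type u} [NormedAddCommGroup E] [NormedSpace ℝ E] [CompleteSpace E]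

/-- a bounded `C^1` vector field is complete -/
theorem exists_global_of_bounded {f : E → E} (hf : ContDiff ℝ 1 f) {B : ℝ} (hB : ∀ x, ‖f x‖ ≤ B)
    (z : E) : ∃ c : ℝ → E, c 0 = z ∧ ∀ t, HasDerivAt c (f (c t)) t := by
  refine PPF.glob_exists hf z (fun T hT c _ hc => ?_)
  have hB0 : 0 ≤ B := (norm_nonneg _).trans (hB z)
  have h1 : ∀ t ∈ Ioo (-T) T, HasDerivAt (fun t => ((c t, (1 : ℝ)) : E × ℝ)) (f (c t), 0) t :=
    fun t ht => (hc t ht).prodMk (hasDerivAt_const t (1 : ℝ))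
  have h2 : ∀ t ∈ Ioo (-T) T, ‖((f (c t), 0) : E × ℝ)‖ ≤ B * ‖((c t, (1 : ℝ)) : E × ℝ)‖ := by
    intro t _
    have h3 : ‖((f (c t), 0) : E × ℝ)‖ ≤ B := by
      rw [Prod.norm_mk, norm_zero]
      exact max_le (hB _) hB0
    have h4 : (1 : ℝ) ≤ ‖((c t, (1 : ℝ)) : E × ℝ)‖ := by
      rw [Prod.norm_mk, norm_one]
      exact le_max_right _ _
    calc ‖((f (c t), 0) : E × ℝ)‖ ≤ B * 1 := by rw [mul_one]; exact h3
      _ ≤ B * ‖((c t, (1 : ℝ)) : E × ℝ)‖ := by gcongr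
  obtain ⟨⟨l, hl⟩, ⟨m, hm⟩⟩ := PPF.lin_limits hT h1 h2
  exact ⟨⟨l.1, (continuous_fst.tendsto l).comp hl⟩, ⟨m.1, (continuous_fst.tendsto m).comp hm⟩⟩

/-- the global flow of a bounded `C^n` vector field -/
theorem exists_flow_of_bounded {n : ℕ∞} (hn : 1 ≤ n) {f : E → E} (hf : ContDiff ℝ n f) {B : ℝ}
    (hB : ∀ x, ‖f x‖ ≤ B) :
    ∃ Φ : ℝ → E → E, ContDiff ℝ n (fun q : ℝ × E => Φ q.1 q.2) ∧ (∀ x, Φ 0 x = x) ∧
      (∀ t x, HasDerivAt (fun s => Φ s x) (f (Φ t x)) t) ∧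
      (∀ s t x, Φ (s + t) x = Φ s (Φ t x)) := by
  have hf1 : ContDiff ℝ 1 f := hf.of_le (by exact_mod_cast hn)
  choose c hc0 hc using exists_global_of_bounded hf1 hB
  have hd : ∀ t x, HasDerivAt (fun s => c x s) (f (c x t)) t := fun t x => hc x t
  exact ⟨fun t x => c x t, contDiff_flow hn hf hc0 hd, hc0, hd,
    fun s t x => flow_add (Φ := fun t x => c x t) hf1 hc0 hd s t x⟩

end Bounded

section FinDim

variable {E : Type u} [NormedAddCommGroup E] [NormedSpace ℝ E] [FiniteDimensional ℝ E]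

/-- cut-off of a vector field -/
theorem exists_cutoff {n : ℕ∞} {f : E → E} {x0 : E} {U : Set E} (hU : U ∈ 𝓝 x0)
    (hf : ContDiffOn ℝ n f U) :
    ∃ g : E → E, ContDiff ℝ n g ∧ (∃ B, ∀ x, ‖g x‖ ≤ B) ∧ ∃ δ > 0, ball x0 δ ⊆ U ∧
      EqOn g f (ball x0 δ) := by
  haveI : ProperSpace E := FiniteDimensional.proper_real E
  obtain ⟨ρ, hρ, hρU⟩ := Metric.mem_nhds_iff.1 hU
  let χ : ContDiffBump x0 := ⟨ρ / 4, ρ / 2, by positivity, by linarith⟩
  have hsub : closedBall x0 (ρ / 2) ⊆ ball x0 ρ := closedBall_subset_ball (by linarith)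
  have hfat : ∀ x ∈ ball x0 ρ, ContDiffAt ℝ n f x := fun x hx =>
    (hf.mono hρU).contDiffAt (isOpen_ball.mem_nhds hx)
  have hg : ContDiff ℝ n (fun x => χ x • f x) := by
    rw [contDiff_iff_contDiffAt]
    intro x
    by_cases hx : x ∈ ball x0 ρ
    · exact χ.contDiffAt.smul (hfat x hx)
    · have hx2 : x ∉ tsupport χ := by
        rw [χ.tsupport_eq]
        intro h
        exact hx (hsub h)
      have h0 : (fun y => χ y • f y) =ᶠ[𝓝 x] fun _ => 0 := by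
        have : ∀ᶠ y in 𝓝 x, y ∉ tsupport χ := (isClosed_tsupport _).isOpen_compl.mem_nhds hx2
        filter_upwards [this] with y hy
        rw [image_eq_zero_of_notMem_tsupport hy, zero_smul]
      exact contDiffAt_const.congr_of_eventuallyEq h0
  refine ⟨fun x => χ x • f x, hg, ?_, ρ / 4, by positivity, ?_, ?_⟩
  · have hcs : HasCompactSupport (fun x => χ x • f x) := by
      have : HasCompactSupport (χ : E → ℝ) := χ.hasCompactSupport
      exact this.smul_right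
    obtain ⟨C, hC⟩ := hcs.exists_bound_of_continuous hg.continuous
    exact ⟨C, hC⟩
  · exact (ball_subset_ball (by linarith)).trans hρU
  · intro x hx
    have : χ x = 1 := χ.one_of_mem_closedBall (ball_subset_closedBall hx)
    simp only [this, one_smul]

/-- **Local flow** of a vector field that is `C^n` near `x0`. -/
theorem exists_localFlow {n : ℕ∞} (hn : 1 ≤ n) {f : E → E} {x0 : E} {U : Set E} (hU : U ∈ 𝓝 x0)
    (hf : ContDiffOn ℝ n f U) :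
    ∃ ε > 0, ∃ Φ : ℝ → E → E, ContDiff ℝ n (fun q : ℝ × E => Φ q.1 q.2) ∧ (∀ x, Φ 0 x = x) ∧
      (∀ s t x, Φ (s + t) x = Φ s (Φ t x)) ∧
      ball x0 ε ⊆ interior U ∧
      ∀ x ∈ ball x0 ε, ∀ t ∈ Ioo (-ε) ε, Φ t x ∈ interior U ∧
        HasDerivAt (fun s => Φ s x) (f (Φ t x)) t := by
  haveI : CompleteSpace E := FiniteDimensional.complete ℝ E
  obtain ⟨g, hg, ⟨B, hB⟩, δ, hδ, hδU, hgf⟩ := exists_cutoff hU hf
  obtain ⟨Φ, hΦ, h0, hd, hadd⟩ := exists_flow_of_bounded hn hg hB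
  have hδU' : ball x0 δ ⊆ interior U := interior_maximal hδU isOpen_ball
  have hcont : ∀ᶠ q : ℝ × E in 𝓝 (0, x0), Φ q.1 q.2 ∈ ball x0 δ := by
    have h1 := hΦ.continuous.tendsto ((0 : ℝ), x0)
    simp only [h0] at h1
    exact h1.eventually (ball_mem_nhds x0 hδ)
  rw [Metric.eventually_nhds_iff_ball] at hcont
  obtain ⟨η, hη, H⟩ := hcont
  refine ⟨min η δ, lt_min hη hδ, Φ, hΦ, h0, hadd,
    (ball_subset_ball (min_le_right _ _)).trans hδU', fun x hx t ht => ?_⟩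
  have h2 : Φ t x ∈ ball x0 δ := by
    refine H (t, x) ?_
    rw [← ball_prod_same]
    refine ⟨?_, ball_subset_ball (min_le_left _ _) hx⟩
    rw [mem_ball_zero_iff, Real.norm_eq_abs, abs_lt]
    exact ⟨lt_of_le_of_lt (neg_le_neg (min_le_left _ _)) ht.1, lt_of_lt_of_le ht.2 (min_le_left _ _)⟩
  refine ⟨hδU' h2, ?_⟩
  have h3 := hd t x
  rwa [hgf h2] at h3

/-- **Regularity of local flows** of a vector field that is `C^n` near `x0` (no continuity in the initial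
point is assumed). -/
theorem contDiffAt_of_localFlow_on {n : ℕ∞} (hn : 1 ≤ n) {f : E → E} {x0 : E} {U : Set E}
    (hU : U ∈ 𝓝 x0) (hf : ContDiffOn ℝ n f U) {a : ℝ} (ha : 0 < a) {Φ : ℝ → E → E}
    (h0 : ∀ᶠ x in 𝓝 x0, Φ 0 x = x)
    (hd : ∀ᶠ x in 𝓝 x0, ∀ t ∈ Ioo (-a) a, HasDerivAt (fun s => Φ s x) (f (Φ t x)) t) :
    ContDiffAt ℝ n (fun q : ℝ × E => Φ q.1 q.2) (0, x0) := by
  obtain ⟨ε, hε, Ψ, hΨ, hΨ0, -, -, hΨd⟩ := exists_localFlow hn hU hf
  refine hΨ.contDiffAt.congr_of_eventuallyEq ?_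
  have h0' : ∀ᶠ q : ℝ × E in 𝓝 (0, x0), Φ 0 q.2 = q.2 :=
    (continuous_snd.tendsto ((0 : ℝ), x0)).eventually h0
  have hd' : ∀ᶠ q : ℝ × E in 𝓝 (0, x0), ∀ t ∈ Ioo (-a) a,
      HasDerivAt (fun s => Φ s q.2) (f (Φ t q.2)) t :=
    (continuous_snd.tendsto ((0 : ℝ), x0)).eventually hd
  have hs : ∀ᶠ q : ℝ × E in 𝓝 (0, x0), q.1 ∈ Ioo (-(min a ε)) (min a ε) :=
    (continuous_fst.tendsto ((0 : ℝ), x0)).eventually
      (Ioo_mem_nhds (by simpa using ⟨ha, hε⟩) (lt_min ha hε))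
  have hx : ∀ᶠ q : ℝ × E in 𝓝 (0, x0), q.2 ∈ ball x0 ε :=
    (continuous_snd.tendsto ((0 : ℝ), x0)).eventually (ball_mem_nhds x0 hε)
  filter_upwards [h0', hd', hs, hx] with q h1 h2 h3 h4
  have hI : ∀ t ∈ Ioo (-(min a ε)) (min a ε), t ∈ Ioo (-a) a ∧ t ∈ Ioo (-ε) ε := fun t ht =>
    ⟨⟨lt_of_le_of_lt (neg_le_neg (min_le_left _ _)) ht.1, lt_of_lt_of_le ht.2 (min_le_left _ _)⟩,
     ⟨lt_of_le_of_lt (neg_le_neg (min_le_right _ _)) ht.1, lt_of_lt_of_le ht.2 (min_le_right _ _)⟩⟩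
  have hmin : 0 < min a ε := lt_min ha hε
  exact sol_unique_on (V := f) (t₀ := 0) (c := fun s => Φ s q.2) (c' := fun s => Ψ s q.2)
    ⟨by linarith, hmin⟩
    (fun t ht => (hf.contDiffAt (mem_interior_iff_mem_nhds.1 (hΨd q.2 h4 t (hI t ht).2).1)).of_le
      (by exact_mod_cast hn))
    (fun t ht => h2 t (hI t ht).1) (fun t ht => (hΨd q.2 h4 t (hI t ht).2).2)
    (by rw [h1, hΨ0]) h3

end FinDim

end Pool.Agent.BL.Flow
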